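import Pool.Agent.Q267.ST.Stm
import Pool.Agent.Q267.DC.LeadW

/-!
# Scaling of the variables, Laurent monomials
-/

set_option autoImplicit false

open Finset

namespace Pool.Agent.Q267.ST

open PowerSeries
open Pool.Agent.Q267.DC (nsq hm)

section dot

variable {ι : Type} [Fintype ι]

/-- The inner product. -/
def dotp (u v : ι →₀ ℕ) : ℕ := ∑ l, u l * v l

/-- The square of the distance. -/
def dst (u v : ι →₀ ℕ) : ℕ := ∑ l, (((u l : ℤ) - v l) ^ 2).toNat

lemma dst_cast (u v : ι →₀ ℕ) : ((dst u v : ℕ) : ℤ) = ∑ l, ((u l : ℤ) - v l) ^ 2 := by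
  unfold dst
  push_cast
  refine sum_congr rfl fun l _ => ?_
  rw [Int.toNat_of_nonneg (sq_nonneg _)]

lemma dst_dot (u v : ι →₀ ℕ) : dst u v + 2 * dotp u v = nsq u + nsq v := by
  zify
  rw [dst_cast]
  unfold dotp nsq
  push_cast
  rw [mul_sum, ← sum_add_distrib, ← sum_add_distrib]
  refine sum_congr rfl fun l _ => ?_
  ring

lemma dst_self (u : ι →₀ ℕ) : dst u u = 0 := by
  have h := dst_cast u u
  simp only [sub_self, ne_eq, OfNat.ofNat_ne_zero, not_false_eq_true, zero_pow, sum_const_zero] at h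
  exact_mod_cast h

lemma dst_pos {u v : ι →₀ ℕ} (h : u ≠ v) : 0 < dst u v := by
  by_contra h0
  have h1 : dst u v = 0 := by omega
  apply h
  have h2 := dst_cast u v
  rw [h1] at h2
  have h3 := (sum_eq_zero_iff_of_nonneg fun l _ => sq_nonneg ((u l : ℤ) - v l)).mp
    (by exact_mod_cast h2.symm)
  ext l
  have h4 := pow_eq_zero_iff two_ne_zero |>.mp (h3 l (mem_univ l))
  have h5 : (u l : ℤ) = v l := by linarith
  exact_mod_cast h5

lemma dotp_add (u v v' : ι →₀ ℕ) : dotp u (v + v') = dotp u v + dotp u v' := by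
  unfold dotp
  rw [← sum_add_distrib]
  exact sum_congr rfl fun l _ => by rw [Finsupp.add_apply]; ring

lemma dotp_smul (u v : ι →₀ ℕ) (m : ℕ) : dotp u (m • v) = m * dotp u v := by
  unfold dotp
  rw [mul_sum]
  exact sum_congr rfl fun l _ => by rw [Finsupp.smul_apply, smul_eq_mul]; ring

lemma dotp_self (u : ι →₀ ℕ) : dotp u u = nsq u := by
  unfold dotp nsq
  exact sum_congr rfl fun l _ => by ring

lemma dotp_zero (u : ι →₀ ℕ) : dotp u 0 = 0 := by
  unfold dotp
  simp

end dot

section scale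

variable {ι : Type} [Fintype ι] {B : Type} [CommRing B]

/-- The substitution `x_i ↦ σ ^ (2 w_i) x_i`. -/
noncomputable def Lam (σ : B) (w : ι →₀ ℕ) : MvPolynomial ι B →+* MvPolynomial ι B :=
  MvPolynomial.eval₂Hom MvPolynomial.C fun i =>
    MvPolynomial.C (σ ^ (2 * w i)) * MvPolynomial.X i

omit [Fintype ι] in
lemma Lam_C (σ : B) (w : ι →₀ ℕ) (b : B) :
    Lam σ w (MvPolynomial.C b) = MvPolynomial.C b := by
  simp [Lam]

lemma Lam_monomial (σ : B) (w v : ι →₀ ℕ) (b : B) :
    Lam σ w (MvPolynomial.monomial v b) = MvPolynomial.monomial v (σ ^ (2 * dotp w v) * b) := by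
  unfold Lam
  rw [MvPolynomial.coe_eval₂Hom, MvPolynomial.eval₂_monomial, MvPolynomial.monomial_eq,
    Finsupp.prod_fintype _ _ (by simp), Finsupp.prod_fintype _ _ (by simp)]
  simp only [mul_pow, prod_mul_distrib, ← map_pow, ← pow_mul]
  rw [← map_prod, prod_pow_eq_pow_sum, mul_comm (σ ^ _) b, map_mul, mul_assoc]
  unfold dotp
  rw [mul_sum]
  congr 4
  exact sum_congr rfl fun l _ => by ring

lemma coeff_Lam (σ : B) (w v : ι →₀ ℕ) (P : MvPolynomial ι B) :
    MvPolynomial.coeff v (Lam σ w P) = σ ^ (2 * dotp w v) * MvPolynomial.coeff v P := by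
  classical
  conv_lhs => rw [P.as_sum]
  rw [map_sum, MvPolynomial.coeff_sum]
  have h1 : ∀ x ∈ P.support,
      MvPolynomial.coeff v (Lam σ w (MvPolynomial.monomial x (MvPolynomial.coeff x P))) =
      if x = v then σ ^ (2 * dotp w v) * MvPolynomial.coeff v P else 0 := by
    intro x _
    rw [Lam_monomial, MvPolynomial.coeff_monomial]
    by_cases h : x = v
    · subst h
      rfl
    · rw [if_neg h, if_neg h]
  rw [sum_congr rfl h1, sum_ite_eq']
  by_cases hv : v ∈ P.support
  · rw [if_pos hv]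
  · rw [if_neg hv, MvPolynomial.notMem_support_iff.mp hv, mul_zero]

end scale

section laurent

variable {ι A : Type} [CommRing A]

lemma xm_add (u v : ι → ℤ) : (xm (u + v) : PowerSeries (LP ι A)) = xm u * xm v := by
  unfold xm
  rw [← map_mul, AddMonoidAlgebra.single_mul_single, mul_one]

lemma xm_zero : (xm (0 : ι → ℤ) : PowerSeries (LP ι A)) = 1 := by
  unfold xm
  rw [← AddMonoidAlgebra.one_def, map_one]

lemma xm_pow (u : ι → ℤ) (n : ℕ) : (xm u : PowerSeries (LP ι A)) ^ n = xm (n • u) := by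
  induction n with
  | zero => rw [pow_zero, zero_smul, xm_zero]
  | succ n ih => rw [pow_succ, ih, ← xm_add, succ_nsmul]

lemma coeff_cx (u : ι → ℤ) (F : PowerSeries (LP ι A)) (n : ℕ) :
    PowerSeries.coeff n (cx u F) = (PowerSeries.coeff n F).coeff u := by
  unfold cx
  rw [PowerSeries.coeff_mk]

lemma cx_xm_mul (u v : ι → ℤ) (F : PowerSeries (LP ι A)) :
    cx u (xm v * F) = cx (u - v) F := by
  ext n
  rw [coeff_cx, coeff_cx]
  unfold xm
  rw [PowerSeries.coeff_C_mul, AddMonoidAlgebra.coeff_single_mul_apply, one_mul, neg_add_eq_sub]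

lemma cx_add (u : ι → ℤ) (F G : PowerSeries (LP ι A)) : cx u (F + G) = cx u F + cx u G := by
  ext n
  rw [map_add, coeff_cx, coeff_cx, coeff_cx, map_add]
  rfl

lemma cx_zero (u : ι → ℤ) : cx u (0 : PowerSeries (LP ι A)) = 0 := by
  ext n
  rw [coeff_cx, map_zero, map_zero]
  rfl

lemma cx_sum {β : Type} (s : Finset β) (u : ι → ℤ) (F : β → PowerSeries (LP ι A)) :
    cx u (∑ b ∈ s, F b) = ∑ b ∈ s, cx u (F b) := by
  classical
  induction s using Finset.induction_on with
  | empty => rw [sum_empty, sum_empty, cx_zero]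
  | insert a s ha ih => rw [sum_insert ha, sum_insert ha, cx_add, ih]

lemma cst_C (a : A) : (cst (PowerSeries.C a) : PowerSeries (LP ι A)) =
    PowerSeries.C (AddMonoidAlgebra.single 0 a) := by
  unfold cst
  rw [PowerSeries.map_C]
  rfl

lemma coeff_cst (a : PowerSeries A) (n : ℕ) : PowerSeries.coeff n (cst a : PowerSeries (LP ι A)) =
    AddMonoidAlgebra.single 0 (PowerSeries.coeff n a) := by
  unfold cst
  rw [PowerSeries.coeff_map]
  rfl

lemma cx_cst_mul (u : ι → ℤ) (a : PowerSeries A) (F : PowerSeries (LP ι A)) :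
    cx u (cst a * F) = a * cx u F := by
  ext n
  rw [coeff_cx, PowerSeries.coeff_mul, PowerSeries.coeff_mul, AddMonoidAlgebra.coeff_sum,
    Finsupp.finsetSum_apply]
  refine sum_congr rfl fun x _ => ?_
  rw [coeff_cst, coeff_cx, AddMonoidAlgebra.coeff_single_mul_apply, neg_zero, zero_add]

variable [DecidableEq ι]

lemma toL_C (a : Polynomial A) : toL (MvPolynomial.C a : MvPolynomial ι (Polynomial A)) =
    cst (a : PowerSeries A) := by
  simp [toL]

lemma toL_monomial [Fintype ι] (v : ι →₀ ℕ) (a : Polynomial A) :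
    toL (MvPolynomial.monomial v a) = cst (a : PowerSeries A) * xm (zexp v) := by
  rw [MvPolynomial.monomial_eq, map_mul, toL_C]
  congr 1
  rw [map_finsuppProd, Finsupp.prod_fintype _ _ (by simp)]
  have h1 : ∀ i, toL ((MvPolynomial.X i : MvPolynomial ι (Polynomial A)) ^ v i) =
      xm (v i • (Pi.single i 1 : ι → ℤ)) := by
    intro i
    rw [map_pow, ← xm_pow]
    congr 1
    simp [toL]
  simp only [h1]
  have h2 : ∀ s : Finset ι, ∏ i ∈ s, (xm (v i • (Pi.single i 1 : ι → ℤ)) :
      PowerSeries (LP ι A)) = xm (∑ i ∈ s, v i • (Pi.single i 1 : ι → ℤ)) := by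
    intro s
    induction s using Finset.induction_on with
    | empty => rw [prod_empty, sum_empty, xm_zero]
    | insert a s ha ih => rw [prod_insert ha, sum_insert ha, xm_add, ih]
  rw [h2]
  congr 1
  ext j
  rw [Finset.sum_apply, sum_eq_single j]
  · simp [zexp]
  · intro i _ hi
    simp [Ne.symm hi]
  · intro h
    exact absurd (mem_univ _) h

end laurent

end Pool.Agent.Q267.ST
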