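import Pool.Agent.Q267.ST.SoftFam
import Pool.Agent.Q121.ST.Cert
import Pool.Agent.Q121.ST.AuxVec
import Pool.Agent.Q121.ST.DF
import Pool.Agent.Q121.ST.Ext
import Pool.Agent.Q225.ST.Van
import Pool.Agent.Q95.ST.Abs
import Pool.Agent.Q299.ST.Frob
import Pool.Agent.Q299.ST.Growth
import Pool.Agent.Q299.ST.Soft
import Pool.Agent.Q299.ST.LipRel

/-!
# Assembly
-/

set_option autoImplicit false

namespace Pool.Agent.Q267.ST

/-- The soft Stepanov theorem. -/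
theorem soft_stepanov : S_Soft :=
  Pool.Agent.Q299.ST.soft (Pool.Agent.Q95.ST.abs Pool.Agent.Q121.ST.cert Pool.Agent.Q225.ST.van
    Pool.Agent.Q121.ST.aux) Pool.Agent.Q299.ST.growth

theorem lip : S_Lip := by
  intro ι A _ _ _ _ _ m g ψ hm hψ u
  obtain ⟨M, lam, h1, h2⟩ := Pool.Agent.Q299.ST.lipRel ι A m g ψ (-1 - u) hm hψ
  have h3 := Pool.Agent.Q121.ST.lipExt ι A (fun v => cx v (xm (-1 - u) * ψ)) M lam h1 h2
  have h4 : cx (fun _ => -1) (xm (-1 - u) * ψ) = cx u ψ := by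
    rw [cx_xm_mul]
    congr 1
    funext i
    simp
  rw [← h4]
  exact h3

theorem family : S_Fam :=
  fam soft_stepanov lip Pool.Agent.Q121.ST.dfAdd Pool.Agent.Q121.ST.dfMul
    Pool.Agent.Q121.ST.dfPoly Pool.Agent.Q121.ST.dfOfODE Pool.Agent.Q121.ST.dfToODE
    Pool.Agent.Q225.ST.root Pool.Agent.Q299.ST.frob Pool.Agent.Q299.ST.cxMul

end Pool.Agent.Q267.ST
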