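import Pool.Agent.Q267.ST.Series

/-!
# Reduction modulo a prime
-/

set_option autoImplicit false

open Finset

namespace Pool.Agent.Q267.ST

open PowerSeries
open Pool.Agent.Q267.DC (nsq hm hm_map det_hm_map)

section maps

variable {ι A k : Type} [CommRing A] [CommRing k]

/-- The reduction of Laurent polynomials. -/
noncomputable def LPm (φ : A →+* k) : LP ι A →+* LP ι k := AddMonoidAlgebra.mapRingHom _ φ

lemma cx_map (φ : A →+* k) (u : ι → ℤ) (F : PowerSeries (LP ι A)) :
    cx u (PowerSeries.map (LPm φ) F) = PowerSeries.map φ (cx u F) := by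
  ext n
  rw [coeff_cx, PowerSeries.coeff_map, PowerSeries.coeff_map, coeff_cx]
  exact AddMonoidAlgebra.coeff_mapRingHom _ _ _

lemma cst_map (φ : A →+* k) (F : PowerSeries A) :
    PowerSeries.map (LPm φ) (cst F : PowerSeries (LP ι A)) = cst (PowerSeries.map φ F) := by
  ext1 n
  rw [PowerSeries.coeff_map, coeff_cst, coeff_cst, PowerSeries.coeff_map]
  exact AddMonoidAlgebra.mapRingHom_single _ _ _

lemma xm_map (φ : A →+* k) (u : ι → ℤ) :
    PowerSeries.map (LPm φ) (xm u : PowerSeries (LP ι A)) = xm u := by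
  unfold xm
  rw [PowerSeries.map_C]
  congr 1
  unfold LPm
  rw [AddMonoidAlgebra.mapRingHom_single, map_one]

lemma coe_map_poly (φ : A →+* k) (P : Polynomial A) :
    ((P.map φ : Polynomial k) : PowerSeries k) = PowerSeries.map φ (P : PowerSeries A) := by
  ext n
  rw [Polynomial.coeff_coe, Polynomial.coeff_map, PowerSeries.coeff_map, Polynomial.coeff_coe]

lemma toL_map [Fintype ι] [DecidableEq ι] (φ : A →+* k) (F : MvPolynomial ι (Polynomial A)) :
    toL (MvPolynomial.map (Polynomial.mapRingHom φ) F) = PowerSeries.map (LPm φ) (toL F) := by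
  conv_lhs => rw [F.as_sum]
  conv_rhs => rw [F.as_sum]
  rw [map_sum, map_sum, map_sum, map_sum]
  refine sum_congr rfl fun v _ => ?_
  rw [MvPolynomial.map_monomial, toL_monomial, toL_monomial, map_mul, cst_map, xm_map]
  congr 2
  exact coe_map_poly φ _

lemma Lam_map {B C : Type} [CommRing B] [CommRing C] [Fintype ι] (φ : B →+* C) (σ : B)
    (w : ι →₀ ℕ) (F : MvPolynomial ι B) :
    Lam (φ σ) w (MvPolynomial.map φ F) = MvPolynomial.map φ (Lam σ w F) := by
  ext v
  rw [coeff_Lam, MvPolynomial.coeff_map, MvPolynomial.coeff_map, coeff_Lam, map_mul, map_pow]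

lemma sg_map (φ : A →+* k) (κ : A) : Polynomial.mapRingHom φ (sg κ) = sg (φ κ) := by
  unfold sg
  rw [map_mul, Polynomial.coe_mapRingHom, Polynomial.map_C, Polynomial.map_X]

lemma fS_map {J : Type} [Fintype J] [Fintype ι] (φ : A →+* k) (m H : ℕ) (w : J → ι →₀ ℕ)
    (κ : A) (G : MvPolynomial ι A) (c : A) (t : J → A) :
    MvPolynomial.map (Polynomial.mapRingHom φ) (fS m H w κ G c t) =
      fS m H w (φ κ) (MvPolynomial.map φ G) (φ c) (fun i => φ (t i)) := by
  unfold fS
  rw [map_add, map_add, map_mul, map_sum, MvPolynomial.map_C, MvPolynomial.map_C, map_pow, sg_map]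
  congr 1
  · congr 1
    · congr 1
      rw [MvPolynomial.map_map, MvPolynomial.map_map]
      have h : (Polynomial.mapRingHom φ).comp Polynomial.C = Polynomial.C.comp φ := by
        ext a
        simp
      rw [h]
    · rw [Polynomial.coe_mapRingHom, Polynomial.map_C]
  · refine sum_congr rfl fun i _ => ?_
    rw [MvPolynomial.map_monomial, map_mul, map_pow, sg_map, Polynomial.coe_mapRingHom,
      Polynomial.map_C]

lemma Fh_map {J : Type} [Fintype ι] (φ : A →+* k) (σ : Polynomial A) (w : J → ι →₀ ℕ)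
    (Ψ : J → PowerSeries (LP ι A)) :
    Fh (σ.map φ) w (fun j => PowerSeries.map (LPm φ) (Ψ j)) =
      (Fh σ w Ψ).map (PowerSeries.map φ) := by
  ext1 j i
  unfold Fh
  rw [Matrix.of_apply, Matrix.map_apply, Matrix.of_apply, map_mul, map_pow, cx_map, coe_map_poly]

end maps

section degree

variable {ι : Type} {k : Type} [CommRing k]

lemma natDegree_coeff_mul {P Q : MvPolynomial ι (Polynomial k)} {a b : ℕ}
    (hP : ∀ v, (MvPolynomial.coeff v P).natDegree ≤ a)
    (hQ : ∀ v, (MvPolynomial.coeff v Q).natDegree ≤ b) (v : ι →₀ ℕ) :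
    (MvPolynomial.coeff v (P * Q)).natDegree ≤ a + b := by
  classical
  rw [MvPolynomial.coeff_mul]
  refine Polynomial.natDegree_sum_le_of_forall_le _ _ fun x _ => ?_
  exact Polynomial.natDegree_mul_le.trans (Nat.add_le_add (hP _) (hQ _))

lemma natDegree_coeff_pow {P : MvPolynomial ι (Polynomial k)} {a : ℕ}
    (hP : ∀ v, (MvPolynomial.coeff v P).natDegree ≤ a) (e : ℕ) (v : ι →₀ ℕ) :
    (MvPolynomial.coeff v (P ^ e)).natDegree ≤ e * a := by
  classical
  induction e generalizing v with
  | zero =>
    rw [pow_zero, MvPolynomial.coeff_one]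
    by_cases h : 0 = v
    · rw [if_pos h]; simp
    · rw [if_neg h]; simp
  | succ e ih =>
    rw [pow_succ, Nat.succ_mul]
    exact natDegree_coeff_mul ih hP v

lemma natDegree_det_hm {J : Type} [Fintype J] [DecidableEq J]
    {P : MvPolynomial ι (Polynomial k)} {a : ℕ}
    (hP : ∀ v, (MvPolynomial.coeff v P).natDegree ≤ a) (e p : ℕ) (w : J → ι →₀ ℕ) :
    (hm e p w P).det.natDegree ≤ Fintype.card J * (e * a) := by
  classical
  rw [Matrix.det_apply]
  refine Polynomial.natDegree_sum_le_of_forall_le _ _ fun σ _ => ?_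
  refine (Polynomial.natDegree_smul_le _ _).trans ((Polynomial.natDegree_prod_le _ _).trans ?_)
  calc ∑ i : J, (hm e p w P (σ i) i).natDegree ≤ ∑ _i : J, e * a := by
        refine sum_le_sum fun i _ => ?_
        unfold hm
        rw [Matrix.of_apply, MvPolynomial.coeff_monomial_mul']
        split_ifs
        · rw [one_mul]
          exact natDegree_coeff_pow hP e _
        · rw [Polynomial.natDegree_zero]
          exact Nat.zero_le _
    _ = _ := by rw [sum_const, card_univ, smul_eq_mul]

lemma natDegree_fS {J : Type} [Fintype J] [Fintype ι] (m H : ℕ) (w : J → ι →₀ ℕ) (κ : k)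
    (G : MvPolynomial ι k) (c : k) (t : J → k) (hH : ∀ j, m * nsq (w j) ≤ H) (v : ι →₀ ℕ) :
    (MvPolynomial.coeff v (fS m H w κ G c t)).natDegree ≤ H := by
  classical
  have hσ : ∀ n, (sg κ ^ n).natDegree ≤ n := by
    intro n
    refine Polynomial.natDegree_pow_le.trans ?_
    have : (sg κ).natDegree ≤ 1 := by
      unfold sg
      refine Polynomial.natDegree_mul_le.trans ?_
      rw [Polynomial.natDegree_C, zero_add]
      exact Polynomial.natDegree_X_le
    calc n * (sg κ).natDegree ≤ n * 1 := Nat.mul_le_mul_left _ this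
      _ = n := mul_one n
  unfold fS
  rw [MvPolynomial.coeff_add, MvPolynomial.coeff_add, MvPolynomial.coeff_C_mul,
    MvPolynomial.coeff_sum, MvPolynomial.coeff_map]
  refine (Polynomial.natDegree_add_le _ _).trans (max_le ?_ ?_)
  · refine (Polynomial.natDegree_add_le _ _).trans (max_le ?_ ?_)
    · refine Polynomial.natDegree_mul_le.trans ?_
      rw [Polynomial.natDegree_C, add_zero]
      exact hσ H
    · rw [MvPolynomial.coeff_C]
      split_ifs
      · rw [Polynomial.natDegree_C]; exact Nat.zero_le _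
      · rw [Polynomial.natDegree_zero]; exact Nat.zero_le _
  · refine Polynomial.natDegree_sum_le_of_forall_le _ _ fun i _ => ?_
    rw [MvPolynomial.coeff_monomial]
    split_ifs
    · refine Polynomial.natDegree_mul_le.trans ?_
      rw [Polynomial.natDegree_C, zero_add]
      exact (hσ _).trans (hH i)
    · rw [Polynomial.natDegree_zero]; exact Nat.zero_le _

end degree

end Pool.Agent.Q267.ST
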