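import Pool.Agent.Q267.ST.Family

/-!
# The series of the family
-/

set_option autoImplicit false

open Finset

namespace Pool.Agent.Q267.ST

open PowerSeries
open Pool.Agent.Q267.DC (nsq hm)

section closure

variable {A : Type} [CommRing A] [IsDomain A]

lemma dfin_sum (hadd : S_DFadd) (hpoly : S_DFpoly) {β : Type} (s : Finset β)
    (f : β → PowerSeries A) (h : ∀ b ∈ s, DFin (f b)) : DFin (∑ b ∈ s, f b) := by
  classical
  induction s using Finset.induction_on with
  | empty =>
    rw [sum_empty, ← Polynomial.coe_zero]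
    exact hpoly A 0
  | insert a s ha ih =>
    rw [sum_insert ha]
    exact hadd A _ _ (h a (mem_insert_self _ _)) (ih fun b hb => h b (mem_insert_of_mem hb))

lemma dfin_prod (hmul : S_DFmul) (hpoly : S_DFpoly) {β : Type} (s : Finset β)
    (f : β → PowerSeries A) (h : ∀ b ∈ s, DFin (f b)) : DFin (∏ b ∈ s, f b) := by
  classical
  induction s using Finset.induction_on with
  | empty =>
    rw [prod_empty, ← Polynomial.coe_one]
    exact hpoly A 1
  | insert a s ha ih =>
    rw [prod_insert ha]
    exact hmul A _ _ (h a (mem_insert_self _ _)) (ih fun b hb => h b (mem_insert_of_mem hb))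

lemma dfin_det (hadd : S_DFadd) (hmul : S_DFmul) (hpoly : S_DFpoly) {J : Type} [Fintype J]
    [DecidableEq J] (M : Matrix J J (PowerSeries A)) (h : ∀ i j, DFin (M i j)) : DFin M.det := by
  rw [Matrix.det_apply']
  refine dfin_sum hadd hpoly _ _ fun σ _ => ?_
  refine hmul A _ _ ?_ (dfin_prod hmul hpoly _ _ fun i _ => h _ _)
  have h1 : (((Equiv.Perm.sign σ : ℤ) : Polynomial A) : PowerSeries A) =
      ((Equiv.Perm.sign σ : ℤ) : PowerSeries A) := by
    rw [← Polynomial.coeToPowerSeries.ringHom_apply, map_intCast]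
  rw [← h1]
  exact hpoly A _

end closure

section series

variable {ι J : Type} [Fintype ι] [DecidableEq ι] [Fintype J] [DecidableEq J]
variable {A : Type} [CommRing A] [IsDomain A] [CharZero A]

/-- **The series of the family.** -/
theorem exists_series (hLip : S_Lip) (hadd : S_DFadd) (hmul : S_DFmul) (hpoly : S_DFpoly)
    (hof : S_DFofODE) (hto : S_DFtoODE) (hroot : S_Root) (m H : ℕ) (hm : m = 1 ∨ m = 2)
    (w : J → ι →₀ ℕ) (hw : Function.Injective w) (κ : A) (G : MvPolynomial ι A) (c : A)
    (t kj : J → A) (hH : ∀ j, ∀ v ∈ G.support, 2 * dotp (w j) v < H + m * nsq (w j))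
    (hw0 : ∀ j, 1 ≤ nsq (w j)) :
    ∃ ψ : J → PowerSeries (LP ι A),
      (∀ j, ψ j ^ m * (1 + (m : PowerSeries (LP ι A)) ^ 2 *
        (yP m H w κ G c t kj j : PowerSeries (LP ι A))) = 1) ∧
      HasODE (Fh (sg κ) w ψ).det ∧ constantCoeff (Fh (sg κ) w ψ).det = 1 := by
  have hm1 : 1 ≤ m := by omega
  have h1 : ∀ j, ∃ ψ : PowerSeries (LP ι A), constantCoeff ψ = 1 ∧
      ψ ^ m * (1 + (m : PowerSeries (LP ι A)) ^ 2 *
        (yP m H w κ G c t kj j : PowerSeries (LP ι A))) = 1 := by
    intro j
    refine hroot (LP ι A) m hm _ ?_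
    rw [← PowerSeries.coeff_zero_eq_constantCoeff_apply, Polynomial.coeff_coe]
    exact yP_zero m H w κ G c t kj j (hH j) hm1 hw (hw0 j)
  choose ψ hψ1 hψ2 using h1
  refine ⟨ψ, hψ2, ?_, ?_⟩
  · apply hto
    refine dfin_det hadd hmul hpoly _ fun j i => ?_
    unfold Fh
    rw [Matrix.of_apply, ← Polynomial.coe_pow]
    refine hmul A _ _ (hpoly A _) (hof A _ ?_)
    refine hLip ι A m (1 + (m : Polynomial (LP ι A)) ^ 2 * yP m H w κ G c t kj j) (ψ j)
      (by omega) ?_ _
    rw [← hψ2 j]
    congr 1
    simp only [← Polynomial.coeToPowerSeries.ringHom_apply, map_add, map_mul, map_pow, map_one,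
      map_natCast]
  · have h2 : ((Fh (sg κ) w ψ).map (constantCoeff (R := A))) = 1 := by
      ext j i
      rw [Matrix.map_apply]
      unfold Fh
      rw [Matrix.of_apply, map_mul, map_pow]
      by_cases hji : j = i
      · subst hji
        rw [dst_self, pow_zero, one_mul, sub_self, Matrix.one_apply_eq,
          ← PowerSeries.coeff_zero_eq_constantCoeff_apply, coeff_cx,
          PowerSeries.coeff_zero_eq_constantCoeff_apply, hψ1, AddMonoidAlgebra.one_def,
          AddMonoidAlgebra.coeff_single, Finsupp.single_eq_same]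
      · rw [Matrix.one_apply_ne hji]
        have h3 : constantCoeff ((sg κ : Polynomial A) : PowerSeries A) = 0 := by
          unfold sg
          rw [Polynomial.coe_mul, Polynomial.coe_X, map_mul, PowerSeries.constantCoeff_X, mul_zero]
        rw [h3, zero_pow (dst_pos fun h => hji (hw h)).ne', zero_mul]
    rw [RingHom.map_det]
    change ((Fh (sg κ) w ψ).map (constantCoeff (R := A))).det = 1
    rw [h2, Matrix.det_one]

end series

end Pool.Agent.Q267.ST
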