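import Mathlib

/-!
# The Schwartz-Zippel lemma for a finite set of variables
-/

set_option autoImplicit false

open Finset MvPolynomial

namespace Pool.Agent.Q267.ST

open Classical in
lemma zip {I k : Type} [Fintype I] [DecidableEq I] [Field k] [Fintype k] (a : MvPolynomial I k) (ha : a ≠ 0) :
    ((univ.filter fun τ : I → k => eval τ a = 0).card : ℝ) ≤
      a.totalDegree / Fintype.card k * (Fintype.card k : ℝ) ^ Fintype.card I := by
  set σ := Fintype.equivFin I with hσ
  have h1 : rename σ a ≠ 0 := fun h => ha (rename_injective σ σ.injective (by rw [h, map_zero]))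
  have h2 := schwartz_zippel_totalDegree h1 (univ : Finset k)
  have hk : (0 : ℝ) < Fintype.card k := by exact_mod_cast Fintype.card_pos
  have h3 : (univ.filter fun τ : I → k => eval τ a = 0).card =
      ((Fintype.piFinset fun _ : Fin (Fintype.card I) => (univ : Finset k)).filter
        fun f => eval f (rename σ a) = 0).card := by
    refine card_bij (fun τ _ => τ ∘ σ.symm) ?_ ?_ ?_
    · intro τ hτ
      rw [mem_filter]
      refine ⟨Fintype.mem_piFinset.mpr fun _ => mem_univ _, ?_⟩
      rw [eval_rename, Function.comp_assoc, Equiv.symm_comp_self, Function.comp_id]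
      exact (mem_filter.mp hτ).2
    · intro τ _ τ' _ h
      funext i
      have := congrFun h (σ i)
      simpa using this
    · intro f hf
      refine ⟨f ∘ σ, ?_, ?_⟩
      · rw [mem_filter]
        refine ⟨mem_univ _, ?_⟩
        rw [← eval_rename]
        exact (mem_filter.mp hf).2
      · rw [Function.comp_assoc, Equiv.self_comp_symm, Function.comp_id]
  have h4 : ((univ.filter fun τ : I → k => eval τ a = 0).card : ℝ) /
      ((Fintype.card k : ℝ) ^ Fintype.card I) ≤ a.totalDegree / Fintype.card k := by
    rw [← h3, card_univ] at h2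
    have h5 : (rename σ a).totalDegree ≤ a.totalDegree := totalDegree_rename_le _ _
    have h6 : (((univ.filter fun τ : I → k => eval τ a = 0).card : ℚ≥0) /
        ((Fintype.card k : ℚ≥0) ^ Fintype.card I) : ℚ≥0) ≤
        (a.totalDegree : ℚ≥0) / Fintype.card k := by
      refine h2.trans ?_
      gcongr
    have h7 := (NNRat.cast_le (K := ℝ)).mpr h6
    push_cast at h7
    exact h7
  rw [div_le_iff₀ (by positivity)] at h4
  exact h4

end Pool.Agent.Q267.ST
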