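import Pool.Agent.Q267.ST.HWt
import Pool.Agent.Q267.ST.Zip

/-!
# Weighted homogeneous families: counting by averaging over the torus
-/

set_option autoImplicit false

open Finset MvPolynomial

namespace Pool.Agent.Q267.ST.Hom

open Pool.Agent.Q267.DC (nsq hm hm_map det_hm_map nsq_smul)

variable {n : ℕ}

lemma hm_C_mul {R : Type*} [CommRing R] {J : Type*} [Fintype J] [DecidableEq J] (e p : ℕ)
    (w : J → Fin n →₀ ℕ) (c : R) (F : MvPolynomial (Fin n) R) :
    (hm e p w (C c * F)).det = (c ^ e) ^ Fintype.card J * (hm e p w F).det := by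
  rw [← Matrix.det_smul]
  congr 1
  ext i j
  unfold hm
  rw [Matrix.smul_apply, Matrix.of_apply, Matrix.of_apply, mul_pow, ← map_pow, smul_eq_mul,
    mul_left_comm, coeff_C_mul]

open Classical in
/-- **Few members are not ordinary.** -/
theorem count1 (hFam : S_Fam) {O : Type} [CommRing O] [IsDomain O] [CharZero O] (m D : ℕ)
    (hm12 : m = 1 ∨ m = 2) (hn : 0 < n) (a : Fin n → ℕ) (ha : ∀ i, a i ≠ 0)
    (G : MvPolynomial (Fin n) O) (hG : ∀ u ∈ G.support, wdeg a u = D)
    (T : Finset (Fin n →₀ ℕ)) (hT : ∀ w : Exps m D a, m • wexp m D a w ∈ T)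
    (hT1 : ∀ u ∈ T, wdeg a u = D) (ε : ℝ) (hε : 0 < ε) :
    ∃ (p₀ : ℕ) (z : MvPolynomial T O), z ≠ 0 ∧ ∀ (p : ℕ) (k : Type) [Field k] [Fintype k]
      [CharP k p] (ρ : O →+* k), p.Prime → p₀ ≤ p → Fintype.card k = p → ∀ e, e * m + 1 = p →
      ((univ.filter fun τ : T → k => (hm e p (wexp m D a)
        (member (map ρ G) T τ)).det = 0).card : ℝ) ≤
      2 * ε * (p : ℝ) ^ Fintype.card T +
        ((univ.filter fun τ : T → k => eval₂ ρ τ z = 0).card : ℝ) := by
  have hm1 : 1 ≤ m := by omega
  have hw0 := nsq_pos_of hn m D a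
  -- the universal family
  set R' : Finset T := univ.filter (fun u : T => ∀ w : Exps m D a, u.1 ≠ m • wexp m D a w)
    with hR'
  set GA : MvPolynomial (Fin n) (MvPolynomial T O) :=
    map C G + ∑ u ∈ R', monomial u.1 (X u) with hGA
  set tA : Exps m D a → MvPolynomial T O := fun w => X ⟨m • wexp m D a w, hT w⟩ with htA
  set κ : MvPolynomial T O := (m : MvPolynomial T O) ^ 2 * ∏ w, tA w with hκd
  set kj : Exps m D a → MvPolynomial T O := fun w => ∏ w' ∈ univ.erase w, tA w' with hkj
  have hκ0 : κ ≠ 0 := by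
    refine mul_ne_zero (pow_ne_zero _ (Nat.cast_ne_zero.mpr (by omega))) ?_
    rw [prod_ne_zero_iff]
    intro w _
    exact X_ne_zero _
  have hκ : ∀ w, κ = (m : MvPolynomial T O) ^ 2 * tA w * kj w := by
    intro w
    rw [hκd, mul_assoc, hkj, mul_prod_erase _ _ (mem_univ w)]
  obtain ⟨H, hH⟩ : ∃ H, H = 1 + ∑ w : Exps m D a, m * nsq (wexp m D a w) +
      ∑ v ∈ GA.support, ∑ w : Exps m D a, 2 * dotp (wexp m D a w) v := ⟨_, rfl⟩
  have hHn : ∀ w : Exps m D a, m * nsq (wexp m D a w) ≤ H := by
    intro w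
    have := single_le_sum (f := fun w : Exps m D a => m * nsq (wexp m D a w))
      (fun _ _ => Nat.zero_le _) (mem_univ w)
    omega
  have hHd : ∀ w : Exps m D a, ∀ v ∈ GA.support,
      2 * dotp (wexp m D a w) v < H + m * nsq (wexp m D a w) := by
    intro w v hv
    have h1 := single_le_sum (f := fun v => ∑ w : Exps m D a, 2 * dotp (wexp m D a w) v)
      (fun _ _ => Nat.zero_le _) hv
    have h2 := single_le_sum (f := fun w : Exps m D a => 2 * dotp (wexp m D a w) v)
      (fun _ _ => Nat.zero_le _) (mem_univ w)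
    omega
  obtain ⟨p₀, z, hz, hS⟩ := hFam (Fin n) (Exps m D a) (MvPolynomial T O) m H hm12 (wexp m D a)
    (wexp_inj m D a) κ hκ0 GA 0 tA kj hκ hHd hHn hw0 ε hε
  refine ⟨p₀, z * κ, mul_ne_zero hz hκ0, ?_⟩
  intro p k _ _ _ ρ hpp hp0 hcard e he
  have hp := hpp.ne_zero
  have hk : ∀ x : k, x ^ p = x := fun x => by rw [← hcard]; exact FiniteField.pow_card x
  set Bad : Finset (T → k) := univ.filter fun τ : T → k => (hm e p (wexp m D a)
        (member (map ρ G) T τ)).det = 0 with hBad
  set Z : Finset (T → k) := univ.filter fun τ : T → k => eval₂ ρ τ (z * κ) = 0 with hZ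
  set N : Finset k := univ.erase 0 with hN
  have hNc : N.card = p - 1 := by
    rw [hN, card_erase_of_mem (mem_univ _), card_univ, hcard]
  -- one orbit
  have horb : ∀ τ : T → k, τ ∉ Z →
      ((N.filter fun x => act m H D a T x τ ∈ Bad).card : ℝ) ≤ ε * p := by
    intro τ hτ
    rw [hZ, mem_filter, not_and] at hτ
    have hτ' := hτ (mem_univ _)
    set φ : MvPolynomial T O →+* k := eval₂Hom ρ τ with hφ
    have hφaκ : φ z * φ κ ≠ 0 := by
      rw [← map_mul]
      exact hτ'
    have hφa := left_ne_zero_of_mul hφaκ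
    have hφκ := right_ne_zero_of_mul hφaκ
    have hφX : ∀ u, φ (X u) = τ u := fun u => by rw [hφ, eval₂Hom_X']
    have hφC : φ.comp C = ρ := by
      rw [hφ]
      exact eval₂Hom_comp_C _ _
    set Gk : MvPolynomial (Fin n) k := map ρ G + ∑ u ∈ R', monomial u.1 (τ u) with hGk
    have hmap : map φ GA = Gk := by
      rw [hGA, map_add, MvPolynomial.map_map, hφC, map_sum]
      congr 1
      refine sum_congr rfl fun u _ => ?_
      rw [map_monomial, hφX]
    have hsup : ∀ u ∈ (fS m H (wexp m D a) (φ κ) (map φ GA) (φ 0) fun w => φ (tA w)).support,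
        wdeg a u = D := by
      intro u hu
      unfold fS at hu
      rcases mem_union.mp (support_add hu) with h1 | h1
      · rcases mem_union.mp (support_add h1) with h2 | h2
        · rw [mem_support_iff, coeff_C_mul] at h2
          have h3 := support_map_subset _ _ (mem_support_iff.mpr (right_ne_zero_of_mul h2))
          rw [hmap, hGk] at h3
          rcases mem_union.mp (support_add h3) with h4 | h4
          · exact hG u (support_map_subset _ _ h4)
          · obtain ⟨v, _, hv⟩ := mem_biUnion.mp (support_sum h4)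
            rw [mem_singleton.mp (support_monomial_subset hv)]
            exact hT1 v.1 v.2
        · rw [map_zero, map_zero, map_zero, support_zero] at h2
          exact absurd h2 (notMem_empty _)
      · obtain ⟨w, _, hw⟩ := mem_biUnion.mp (support_sum h1)
        rw [mem_singleton.mp (support_monomial_subset hw)]
        exact hT1 _ (hT w)
    have h1 := hS p k φ hpp hp0 hφa hk e he
      (fun l v hv hv' => supp_cond hm1 hp he a ha _ hsup l v hv hv')
      ((N.filter fun x => act m H D a T x τ ∈ Bad).image fun x => (φ κ * x)⁻¹) (by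
        intro s hs
        obtain ⟨x, hx, rfl⟩ := mem_image.mp hs
        obtain ⟨hx1, hx2⟩ := mem_filter.mp hx
        have hx0 : x ≠ 0 := (mem_erase.mp hx1).1
        have hs0 : (φ κ * x)⁻¹ ≠ 0 := inv_ne_zero (mul_ne_zero hφκ hx0)
        refine ⟨hs0, ?_⟩
        have htA : (fun w => φ (tA w)) = fun w : Exps m D a => τ ⟨m • wexp m D a w, hT w⟩ := by
          funext w
          exact hφX _
        rw [hmap, map_zero, htA, hGk, fS_eval m H D hm1 a _ T hT hHn (φ κ) _ hφκ hs0 τ,
          hm_C_mul]
        have h2 : (φ κ * (φ κ * x)⁻¹)⁻¹ = x := by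
          field_simp
        rw [h2]
        rw [hBad, mem_filter] at hx2
        rw [hx2.2, mul_zero])
    rw [card_image_of_injOn] at h1
    · exact h1
    · intro x _ y _ hxy
      have h2 : φ κ * x = φ κ * y := inv_injective hxy
      exact mul_left_cancel₀ hφκ h2
  -- double counting
  have hdc : (p - 1 : ℕ) * Bad.card =
      ∑ τ : T → k, (N.filter fun x => act m H D a T x τ ∈ Bad).card := by
    have h1 : ∀ x ∈ N, (univ.filter fun τ : T → k => act m H D a T x τ ∈ Bad).card = Bad.card := by
      intro x hx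
      have hb := act_bij m H D a T (mem_erase.mp hx).1
      rw [← card_image_of_injective _ hb.1]
      congr 1
      ext τ
      rw [mem_image]
      constructor
      · rintro ⟨τ', h2, rfl⟩
        exact (mem_filter.mp h2).2
      · intro h2
        obtain ⟨τ', rfl⟩ := hb.2 τ
        exact ⟨τ', mem_filter.mpr ⟨mem_univ _, h2⟩, rfl⟩
    calc (p - 1 : ℕ) * Bad.card = ∑ _x ∈ N, Bad.card := by
          rw [sum_const, hNc, smul_eq_mul]
      _ = ∑ x ∈ N, (univ.filter fun τ : T → k => act m H D a T x τ ∈ Bad).card :=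
          sum_congr rfl fun x hx => (h1 x hx).symm
      _ = _ := by
          simp only [card_filter]
          rw [sum_comm]
  have hp2 : (2 : ℝ) ≤ p := by exact_mod_cast hpp.two_le
  have hp1 : ((p - 1 : ℕ) : ℝ) = p - 1 := by
    rw [Nat.cast_sub hpp.one_lt.le, Nat.cast_one]
  have hall : (Fintype.card (T → k) : ℝ) = (p : ℝ) ^ Fintype.card T := by
    rw [Fintype.card_fun, hcard]
    push_cast
    rfl
  have hR : ((p : ℝ) - 1) * Bad.card ≤ (p : ℝ) ^ Fintype.card T * (ε * p) +
      (p - 1) * Z.card := by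
    rw [← hp1]
    have h1 : (((p - 1 : ℕ) * Bad.card : ℕ) : ℝ) =
        ∑ τ : T → k, ((N.filter fun x => act m H D a T x τ ∈ Bad).card : ℝ) := by
      rw [hdc]
      push_cast
      rfl
    rw [Nat.cast_mul] at h1
    rw [h1, ← sum_filter_add_sum_filter_not univ (fun τ => τ ∈ Z), add_comm]
    refine add_le_add ?_ ?_
    · calc ∑ τ ∈ univ.filter (fun τ => τ ∉ Z),
            ((N.filter fun x => act m H D a T x τ ∈ Bad).card : ℝ) ≤
          ∑ _τ ∈ univ.filter (fun τ => τ ∉ Z), ε * p :=
            sum_le_sum fun τ hτ => horb τ (mem_filter.mp hτ).2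
        _ ≤ ∑ _τ : T → k, ε * p :=
            sum_le_sum_of_subset_of_nonneg (filter_subset _ _) fun _ _ _ => by positivity
        _ = _ := by rw [sum_const, card_univ, nsmul_eq_mul, hall]
    · calc ∑ τ ∈ univ.filter (fun τ => τ ∈ Z),
            ((N.filter fun x => act m H D a T x τ ∈ Bad).card : ℝ) ≤
          ∑ _τ ∈ univ.filter (fun τ => τ ∈ Z), ((p - 1 : ℕ) : ℝ) := by
            refine sum_le_sum fun τ _ => ?_
            rw [← hNc]
            exact_mod_cast card_filter_le _ _
        _ = _ := by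
            rw [sum_const, nsmul_eq_mul, filter_mem_eq_inter, univ_inter, mul_comm]
  -- conclusion
  have hpos : (0 : ℝ) < p - 1 := by linarith
  have h1 : ((p : ℝ) - 1) * Bad.card ≤ (p - 1) * (2 * ε * (p : ℝ) ^ Fintype.card T + Z.card) := by
    refine hR.trans ?_
    rw [mul_add]
    have h2 : (p : ℝ) ^ Fintype.card T * (ε * p) ≤
        (p - 1) * (2 * ε * (p : ℝ) ^ Fintype.card T) := by
      have h3 : 0 ≤ ε * (p : ℝ) ^ Fintype.card T := by positivity
      nlinarith
    linarith
  exact le_of_mul_le_mul_left h1 hpos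

open Classical in
/-- **The proportion of good members.** -/
theorem res_count {k : Type} [Field k] [Fintype k] (p : ℕ) [Fact p.Prime] [CharP k p]
    (T : Finset (Fin n →₀ ℕ)) (G : MvPolynomial (Fin n) k)
    (P : MvPolynomial (Fin n) k → Prop) (δ : ℝ)
    (hP : ((univ.filter fun τ : T → k => ¬ P (member G T τ)).card : ℝ) ≤
      δ * (p : ℝ) ^ Fintype.card T) (S : Finset (T → ℕ))
    (hS : ∀ t : T → ℕ, (∀ j, t j < p) → P (member G T fun j => (t j : k)) → t ∈ S) :
    1 - δ ≤ (S.card : ℝ) / (p : ℝ) ^ Fintype.card T := by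
  have hp := (Fact.out : p.Prime)
  have hpR : (0 : ℝ) < p := by exact_mod_cast hp.pos
  set box : Finset (T → ℕ) := Fintype.piFinset fun _ => range p with hbox
  set Bp := box.filter fun t => ¬ P (member G T fun j => (t j : k)) with hBp
  have hinj : ∀ t ∈ box, ∀ t' ∈ box, (fun j => (t j : k)) = (fun j => (t' j : k)) → t = t' := by
    intro t ht t' ht' h
    funext j
    exact CharP.natCast_injOn_Iio k p
      (Set.mem_Iio.mpr (mem_range.mp (Fintype.mem_piFinset.mp ht j)))
      (Set.mem_Iio.mpr (mem_range.mp (Fintype.mem_piFinset.mp ht' j))) (congrFun h j)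
  have h2 : Bp.card ≤ (univ.filter fun τ : T → k => ¬ P (member G T τ)).card := by
    refine card_le_card_of_injOn (fun t j => (t j : k)) ?_ ?_
    · intro t ht
      exact mem_coe.mpr (mem_filter.mpr ⟨mem_univ _, (mem_filter.mp (mem_coe.mp ht)).2⟩)
    · intro t ht t' ht' h
      exact hinj t (mem_filter.mp (mem_coe.mp ht)).1 t' (mem_filter.mp (mem_coe.mp ht')).1 h
  have h3 : box.card = p ^ Fintype.card T := by
    rw [hbox, Fintype.card_piFinset, prod_const, card_range, card_univ]
  have h4 : box ⊆ S ∪ Bp := by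
    intro t ht
    by_cases h6 : P (member G T fun j => (t j : k))
    · exact mem_union_left _ (hS t (fun j => mem_range.mp (Fintype.mem_piFinset.mp ht j)) h6)
    · exact mem_union_right _ (mem_filter.mpr ⟨ht, h6⟩)
  have h5 : p ^ Fintype.card T ≤ S.card +
      (univ.filter fun τ : T → k => ¬ P (member G T τ)).card := by
    rw [← h3]
    refine (card_le_card h4).trans ((card_union_le _ _).trans ?_)
    exact Nat.add_le_add_left h2 _
  rw [le_div_iff₀ (by positivity)]
  have h6 : (p : ℝ) ^ Fintype.card T ≤ S.card + δ * (p : ℝ) ^ Fintype.card T := by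
    have h7 : ((p ^ Fintype.card T : ℕ) : ℝ) ≤
        ((S.card + (univ.filter fun τ : T → k => ¬ P (member G T τ)).card : ℕ) : ℝ) := by
      exact_mod_cast h5
    push_cast at h7
    linarith
  linarith

end Pool.Agent.Q267.ST.Hom
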