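import Pool.Agent.Q267.ST.All
import Pool.Agent.Q267.ST.HCount
import Pool.Agent.Q267.DC.Main

/-!
# Density one of the ordinary places for almost all members of weighted homogeneous families
-/

set_option autoImplicit false

open Finset MvPolynomial

namespace Pool.Agent.Q267.ST.Hom

open NumberField IsDedekindDomain Filter Topology
open Pool.Agent.W401.Cheb Pool.Agent.W528.Ord
open Pool.Agent.Q267.OD (allP red charP_res finite_mem)
open Pool.Agent.Q267.DC (abs_sup card_res hm)

section place

variable {K : Type} [Field K] [NumberField K]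

variable {n : ℕ}

/-- Good ordinary reduction of `y ^ m = f` at `v` (for `m = 1`: of the hypersurface `f = 0`). -/
def GoodOrd (m D : ℕ) (a : Fin n → ℕ) (v : HeightOneSpectrum (𝓞 K))
    (f : MvPolynomial (Fin n) (𝓞 K)) : Prop :=
  (m : 𝓞 K) ∉ v.asIdeal ∧ QSmooth (red v f) ∧
    (hasseWitt m D a (Ideal.absNorm v.asIdeal) (red v f)).det ≠ 0

omit [NumberField K] in
lemma red_member (v : HeightOneSpectrum (𝓞 K)) (G : MvPolynomial (Fin n) (𝓞 K))
    (T : Finset (Fin n →₀ ℕ)) (t : T → ℕ) :
    red v (member G T fun j => (t j : 𝓞 K)) =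
      member (red v G) T fun j => (t j : v.asIdeal.ResidueField) := by
  unfold red member
  rw [map_add, map_sum]
  congr 1
  refine sum_congr rfl fun w _ => ?_
  rw [map_monomial, map_natCast]

end place

theorem main (hDisc : S_Disc) (K : Type) [Field K] [NumberField K] (m D : ℕ)
    (hm12 : m = 1 ∨ m = 2) {n : ℕ} (hn : 0 < n) (a : Fin n → ℕ) (ha : ∀ i, a i ≠ 0)
    (G : MvPolynomial (Fin n) (𝓞 K)) (hG : ∀ u ∈ G.support, wdeg a u = D)
    (T : Finset (Fin n →₀ ℕ)) (hT0 : T.Nonempty) (hT : ∀ w : Exps m D a, m • wexp m D a w ∈ T)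
    (hT1 : ∀ u ∈ T, wdeg a u = D)
    (hsm : ∃ τ : T → K, QSmooth (member (map (algebraMap (𝓞 K) K) G) T τ))
    (η : ℝ) (hη : 0 < η) (θ : ℝ) (hθ0 : 0 < θ) (hθ1 : θ < 1) :
    ∃ A : ℝ, ∀ X Q₀ Q₁ : ℕ, 1 ≤ Q₀ →
      ({t : T → ℕ | (∀ j, 1 ≤ t j ∧ t j ≤ X) ∧ ∃ Q, Q₀ ≤ Q ∧ Q ≤ Q₁ ∧
        (Nat.card {v : HeightOneSpectrum (𝓞 K) // Ideal.absNorm v.asIdeal ≤ Q ∧
          GoodOrd m D a v (member G T fun j => (t j : 𝓞 K))} : ℝ) <
        (1 - η) * allP K Q}.ncard : ℝ) ≤
        A * ((X : ℝ) ^ T.card * (Q₀ : ℝ) ^ (θ - 1) +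
          (X : ℝ) ^ (T.card - 1) * (Q₁ : ℝ) ^ (1 + θ)) := by
  classical
  have hm1 : 1 ≤ m := by omega
  obtain ⟨z0, hz0⟩ := hT0
  have hne : Nonempty T := ⟨⟨z0, hz0⟩⟩
  -- the discriminant
  obtain ⟨Δ, hΔ, hΔs⟩ : ∃ Δ : MvPolynomial T (𝓞 K), Δ ≠ 0 ∧ ∀ (k : Type) [Field k]
      (ρ : 𝓞 K →+* k) (τ' : T → k), eval₂ ρ τ' Δ ≠ 0 → QSmooth (member (map ρ G) T τ') := by
    obtain ⟨τ, hτ⟩ := hsm
    refine hDisc (𝓞 K) (AlgebraicClosure K)
      ((algebraMap K (AlgebraicClosure K)).comp (algebraMap (𝓞 K) K)) n a D ha G hG T hT1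
      (fun u => algebraMap K (AlgebraicClosure K) (τ u)) ?_
    have h1 : member (map ((algebraMap K (AlgebraicClosure K)).comp (algebraMap (𝓞 K) K)) G) T
        (fun u => algebraMap K (AlgebraicClosure K) (τ u)) =
        map (algebraMap K (AlgebraicClosure K)) (member (map (algebraMap (𝓞 K) K) G) T τ) := by
      unfold member
      rw [map_add, map_sum, MvPolynomial.map_map]
      congr 1
      exact sum_congr rfl fun u _ => (map_monomial _ _ _).symm
    rw [h1]
    intro ξ h2 h3
    refine hτ ξ ?_ fun i => ?_
    · rw [aeval_def, ← eval_map]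
      exact h2
    · rw [aeval_def, ← eval_map, ← pderiv_map]
      exact h3 i
  obtain ⟨A, hA⟩ := abs_sup K (J := T) (Γ := Unit)
    (fun _ v t => GoodOrd m D a v (member G T fun j => (t j : 𝓞 K))) (fun _ => True) 1
    one_pos le_rfl (dens_true (K := K)) 1 zero_le_one le_rfl (by
      intro ε hε
      obtain ⟨p₀, z, hz, hcount⟩ := count1 family (O := 𝓞 K) m D hm12 hn a ha G hG T hT hT1
        (ε / 8) (by positivity)
      obtain ⟨α, hα⟩ : ∃ α, coeff α z ≠ 0 := by
        by_contra h
        push Not at h
        exact hz (MvPolynomial.ext _ _ fun α => by rw [h α, coeff_zero])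
      obtain ⟨α', hα'⟩ : ∃ α, coeff α Δ ≠ 0 := by
        by_contra h
        push Not at h
        exact hΔ (MvPolynomial.ext _ _ fun α => by rw [h α, coeff_zero])
      set Dd : ℕ := Δ.totalDegree + z.totalDegree with hDd
      set Bad : HeightOneSpectrum (𝓞 K) → Prop := fun v =>
        (m : 𝓞 K) ∈ v.asIdeal ∨ coeff α' Δ ∈ v.asIdeal ∨ coeff α z ∈ v.asIdeal ∨
          ¬ ((Dd : ℝ) ≤ ε / 2 * Ideal.absNorm v.asIdeal ∧ p₀ ≤ Ideal.absNorm v.asIdeal) with hBad
      have hfin : {v | Bad v}.Finite := by
        have h1 := finite_mem (K := K) (m : 𝓞 K) (Nat.cast_ne_zero.mpr (by omega))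
        have h2 := finite_mem (K := K) (coeff α' Δ) hα'
        have h3 := finite_mem (K := K) (coeff α z) hα
        have h4 := Pool.Agent.W352.ChAbs.finite_le (K := K) (⌈(Dd : ℝ) / (ε / 2)⌉₊ + p₀)
        refine (((h1.union h2).union h3).union h4).subset ?_
        rintro v (h | h | h | h)
        · exact Or.inl (Or.inl (Or.inl h))
        · exact Or.inl (Or.inl (Or.inr h))
        · exact Or.inl (Or.inr h)
        · right
          change Ideal.absNorm v.asIdeal ≤ _
          by_cases h5 : p₀ ≤ Ideal.absNorm v.asIdeal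
          · have h6 : ¬ (Dd : ℝ) ≤ ε / 2 * Ideal.absNorm v.asIdeal := fun h7 => h ⟨h7, h5⟩
            push Not at h6
            have h7 : (Ideal.absNorm v.asIdeal : ℝ) ≤ (Dd : ℝ) / (ε / 2) := by
              rw [le_div_iff₀ (by positivity)]
              linarith
            have h8 : Ideal.absNorm v.asIdeal ≤ ⌈(Dd : ℝ) / (ε / 2)⌉₊ := by
              exact_mod_cast h7.trans (Nat.le_ceil _)
            omega
          · omega
      refine ⟨fun v => (Ideal.absNorm v.asIdeal).Prime ∧ ¬ Bad v, ?_, fun v hv => ⟨trivial, hv.1⟩,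
        ?_⟩
      · have h1 : Tendsto (fun N => dens (fun v : HeightOneSpectrum (𝓞 K) =>
            ¬ (Ideal.absNorm v.asIdeal).Prime) N + dens Bad N) atTop (𝓝 (0 + 0)) :=
          (dens_not_prime (K := K)).add (dens_finite Bad hfin)
        rw [add_zero] at h1
        refine squeeze_zero (fun N => dens_nonneg _ _) (fun N => ?_) h1
        refine le_trans (dens_mono (Q := fun v => ¬ (Ideal.absNorm v.asIdeal).Prime ∨ Bad v) ?_ N)
          (dens_or _ _ N)
        rintro v ⟨_, hv⟩
        by_cases h3 : (Ideal.absNorm v.asIdeal).Prime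
        · right
          by_contra h4
          exact hv ⟨h3, h4⟩
        · exact Or.inl h3
      · rintro _ v ⟨hv, hnb⟩
        simp only [hBad] at hnb
        push Not at hnb
        obtain ⟨hvm, hvΔ, hvα, hvε, hvp⟩ := hnb
        have := charP_res v hv
        have hfact : Fact (Ideal.absNorm v.asIdeal).Prime := ⟨hv⟩
        have hmod : ∀ t : T → ℕ, ∀ j, (t j : v.asIdeal.ResidueField) =
            ((t j % Ideal.absNorm v.asIdeal : ℕ) : v.asIdeal.ResidueField) := fun t j =>
          (CharP.natCast_eq_natCast' _ (Ideal.absNorm v.asIdeal) (Nat.mod_modEq _ _)).symm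
        refine ⟨?_, ?_⟩
        · intro t
          unfold GoodOrd
          rw [red_member, red_member]
          simp only [← hmod]
        · have hcn := card_res v
          have hfinite : Finite v.asIdeal.ResidueField :=
            Nat.finite_of_card_ne_zero (by rw [hcn]; exact hv.ne_zero)
          have : Fintype v.asIdeal.ResidueField := Fintype.ofFinite _
          rw [Nat.card_eq_fintype_card] at hcn
          obtain ⟨e, he⟩ : ∃ e, e * m + 1 = Ideal.absNorm v.asIdeal := by
            rcases hm12 with h | h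
            · exact ⟨Ideal.absNorm v.asIdeal - 1, by rw [h]; have := hv.one_lt; omega⟩
            · have h2 : Ideal.absNorm v.asIdeal ≠ 2 := by
                intro h3
                apply hvm
                have h4 := Ideal.absNorm_mem v.asIdeal
                rw [h3] at h4
                rw [h]
                exact_mod_cast h4
              have h3 := hv.eq_two_or_odd
              exact ⟨(Ideal.absNorm v.asIdeal - 1) / 2, by rw [h]; omega⟩
          have hee : (Ideal.absNorm v.asIdeal - 1) / m = e := by
            rw [← he, Nat.add_sub_cancel]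
            exact Nat.mul_div_cancel _ hm1
          set S : Finset (T → ℕ) := (Fintype.piFinset
            fun _ : T => range (Ideal.absNorm v.asIdeal)).filter fun t =>
              GoodOrd m D a v (member G T fun j => (t j : 𝓞 K)) with hS
          refine ⟨S, ?_, ?_⟩
          · intro t ht
            rw [hS, Finset.mem_filter, Fintype.mem_piFinset] at ht
            exact ⟨fun j => Finset.mem_range.mp (ht.1 j), ht.2⟩
          · set ρ : 𝓞 K →+* v.asIdeal.ResidueField := algebraMap (𝓞 K) v.asIdeal.ResidueField
              with hρ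
            have h1 := hcount (Ideal.absNorm v.asIdeal) v.asIdeal.ResidueField ρ hv hvp hcn e he
            have hpR : (0 : ℝ) < Ideal.absNorm v.asIdeal := by exact_mod_cast hv.pos
            have hzip : ∀ (b : MvPolynomial T (𝓞 K)) (β : T →₀ ℕ), coeff β b ∉ v.asIdeal →
                ((univ.filter fun τ : T → v.asIdeal.ResidueField => eval₂ ρ τ b = 0).card : ℝ) ≤
                (b.totalDegree : ℝ) / Ideal.absNorm v.asIdeal *
                  (Ideal.absNorm v.asIdeal : ℝ) ^ Fintype.card T := by
              intro b β hβ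
              have h2 : MvPolynomial.map ρ b ≠ 0 := by
                intro h
                have h3 := congrArg (coeff β) h
                rw [coeff_map, coeff_zero, hρ, Ideal.algebraMap_residueField_eq_zero] at h3
                exact hβ h3
              have h3 := zip (MvPolynomial.map ρ b) h2
              rw [hcn] at h3
              have h4 : ∀ τ : T → v.asIdeal.ResidueField,
                  eval₂ ρ τ b = eval τ (MvPolynomial.map ρ b) := fun τ => by rw [eval_map]
              simp only [h4]
              refine h3.trans ?_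
              have h5 : ((MvPolynomial.map ρ b).totalDegree : ℝ) ≤ b.totalDegree := by
                exact_mod_cast Finset.sup_mono (support_map_subset ρ b)
              gcongr
            have h2 := hzip z α hvα
            have h3 := hzip Δ α' hvΔ
            have h4 : (univ.filter fun τ : T → v.asIdeal.ResidueField =>
                ¬ (QSmooth (member (map ρ G) T τ) ∧
                  (hm e (Ideal.absNorm v.asIdeal) (wexp m D a) (member (map ρ G) T τ)).det ≠ 0)) ⊆
                (univ.filter fun τ : T → v.asIdeal.ResidueField =>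
                  (hm e (Ideal.absNorm v.asIdeal) (wexp m D a) (member (map ρ G) T τ)).det = 0) ∪
                (univ.filter fun τ : T → v.asIdeal.ResidueField => eval₂ ρ τ Δ = 0) := by
              intro τ hτ
              have h5 := (Finset.mem_filter.mp hτ).2
              by_cases h6 : eval₂ ρ τ Δ = 0
              · exact Finset.mem_union_right _ (Finset.mem_filter.mpr ⟨Finset.mem_univ _, h6⟩)
              · refine Finset.mem_union_left _ (Finset.mem_filter.mpr ⟨Finset.mem_univ _, ?_⟩)
                by_contra h7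
                exact h5 ⟨hΔs _ ρ τ h6, h7⟩
            have h5 := (Finset.card_le_card h4).trans (Finset.card_union_le _ _)
            have h6 := res_count (Ideal.absNorm v.asIdeal) T (MvPolynomial.map ρ G)
              (fun f => QSmooth f ∧ (hm e (Ideal.absNorm v.asIdeal) (wexp m D a) f).det ≠ 0)
              (2 * (ε / 8) + ((z.totalDegree : ℝ) / Ideal.absNorm v.asIdeal +
                (Δ.totalDegree : ℝ) / Ideal.absNorm v.asIdeal)) (by
                refine le_trans (le_of_eq ?_) (le_trans (Nat.cast_le.mpr h5) ?_)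
                · congr
                push_cast
                rw [add_mul, add_mul]
                linarith) S (by
                intro t ht h7
                rw [hS, Finset.mem_filter, Fintype.mem_piFinset]
                refine ⟨fun j => Finset.mem_range.mpr (ht j), hvm, ?_, ?_⟩
                · rw [red_member]
                  exact h7.1
                · rw [red_member, hasseWitt_eq, hee]
                  exact h7.2)
            refine le_trans ?_ h6
            have h7 : (z.totalDegree : ℝ) / Ideal.absNorm v.asIdeal +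
                (Δ.totalDegree : ℝ) / Ideal.absNorm v.asIdeal ≤ ε / 2 := by
              rw [← add_div, div_le_iff₀ hpR]
              have : (Dd : ℝ) = (Δ.totalDegree : ℝ) + z.totalDegree := by
                rw [hDd]
                push_cast
                ring
              linarith
            linarith) (η / 2) (by positivity) θ hθ0 hθ1
  refine ⟨A, fun X Q₀ Q₁ hQ₀ => ?_⟩
  obtain ⟨δ, hδ, h⟩ := hA ()
  have h1 := h X Q₀ Q₁ hQ₀
  simp only [true_and] at h1
  rw [Fintype.card_coe] at h1
  refine le_trans ?_ h1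
  have hfin : {t : T → ℕ | (∀ j, 1 ≤ t j ∧ t j ≤ X) ∧ ∃ Q, Q₀ ≤ Q ∧ Q ≤ Q₁ ∧ η / 2 * allP K Q <
        |(Nat.card {v : HeightOneSpectrum (𝓞 K) // Ideal.absNorm v.asIdeal ≤ Q ∧
          GoodOrd m D a v (member G T fun j => (t j : 𝓞 K))} : ℝ) -
          δ Q * allP K Q|}.Finite := by
    refine (Finset.finite_toSet (Fintype.piFinset fun _ : T => Finset.Icc 1 X)).subset ?_
    intro t ht
    rw [Finset.mem_coe, Fintype.mem_piFinset]
    exact fun j => Finset.mem_Icc.mpr (ht.1 j)
  refine Nat.cast_le.mpr (Set.ncard_le_ncard ?_ hfin)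
  rintro t ⟨ht, Q, hq1, hq2, hq3⟩
  refine ⟨ht, Q, hq1, hq2, ?_⟩
  have h2 := hδ Q
  have h3 : (0 : ℝ) ≤ allP K Q := Nat.cast_nonneg _
  have h4 : (1 - η / 2) * (allP K Q : ℝ) ≤ δ Q * allP K Q :=
    mul_le_mul_of_nonneg_right (by linarith) h3
  rw [abs_sub_comm]
  refine lt_of_lt_of_le ?_ (le_abs_self _)
  nlinarith

end Pool.Agent.Q267.ST.Hom
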