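import Pool.Agent.Q267.ST.Red

/-!
# The zeros of the Hasse-Witt determinant in the one-parameter families
-/

set_option autoImplicit false

open Finset

namespace Pool.Agent.Q267.ST

open PowerSeries
open Pool.Agent.Q267.DC (nsq hm hm_map det_hm_map)

lemma deriv_expand {k : Type} [Field k] (p : ℕ) [CharP k p] (hp : p ≠ 0) (F : PowerSeries k) :
    d⁄dX k (PowerSeries.expand p hp F) = 0 := by
  ext n
  rw [PowerSeries.coeff_derivative, map_zero, PowerSeries.coeff_expand]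
  split_ifs with h
  · have h1 : ((n + 1 : ℕ) : k) = 0 := (CharP.cast_eq_zero_iff k p _).mpr h
    push_cast at h1
    rw [h1, mul_zero]
  · rw [zero_mul]

section main

variable {ι J : Type} [Fintype ι] [DecidableEq ι] [Fintype J] [DecidableEq J]
variable {A : Type} [CommRing A] [IsDomain A] [CharZero A]

/-- **Few members of the one-parameter family are not ordinary.** -/
theorem soft_fam (hSoft : S_Soft) (hLip : S_Lip) (hadd : S_DFadd) (hmul : S_DFmul)
    (hpoly : S_DFpoly) (hof : S_DFofODE) (hto : S_DFtoODE) (hroot : S_Root) (hF : S_Frob)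
    (hC : S_CxMul) (m H : ℕ) (hm12 : m = 1 ∨ m = 2)
    (w : J → ι →₀ ℕ) (hw : Function.Injective w) (κ : A) (hκ0 : κ ≠ 0) (G : MvPolynomial ι A)
    (c : A) (t kj : J → A) (hκ : ∀ j, κ = (m : A) ^ 2 * t j * kj j)
    (hH : ∀ j, ∀ v ∈ G.support, 2 * dotp (w j) v < H + m * nsq (w j))
    (hHn : ∀ j, m * nsq (w j) ≤ H) (hw0 : ∀ j, 1 ≤ nsq (w j)) (ε : ℝ) (hε : 0 < ε) :
    ∃ (p₀ : ℕ) (a : A), a ≠ 0 ∧ ∀ (p : ℕ) (k : Type) [Field k] [CharP k p] (φ : A →+* k),
      p.Prime → p₀ ≤ p → φ a ≠ 0 → (∀ x : k, x ^ p = x) → ∀ e : ℕ, e * m + 1 = p →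
      (∀ l, ∀ v ∈ (MvPolynomial.monomial (w l) 1 *
        (fS m H w (φ κ) (MvPolynomial.map φ G) (φ c) fun i => φ (t i)) ^ e).support,
        (∃ v', v = p • v') → ∃ i, v = p • w i) →
      ∀ T : Finset k, (∀ s ∈ T, s ≠ 0 ∧ (hm e p w (MvPolynomial.map (Polynomial.evalRingHom s)
        (fS m H w (φ κ) (MvPolynomial.map φ G) (φ c) fun i => φ (t i)))).det = 0) →
      (T.card : ℝ) ≤ ε * p := by
  classical
  obtain ⟨ψ, hψ, hode, hD1⟩ := exists_series hLip hadd hmul hpoly hof hto hroot m H hm12 w hw κ G c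
    t kj hH hw0
  have hm1 : 1 ≤ m := by omega
  have hD0 : (Fh (sg κ) w ψ).det ≠ 0 := by
    intro h
    rw [h, map_zero] at hD1
    exact zero_ne_one hD1
  obtain ⟨p₀, a, ha, hS⟩ := hSoft A _ hD0 hode ε hε (Fintype.card J * H)
  refine ⟨p₀, a * κ, mul_ne_zero ha hκ0, ?_⟩
  intro p k _ _ φ hpp hp0 hφ hk e he hsupp T hT
  have hfact : Fact p.Prime := ⟨hpp⟩
  have hp : p ≠ 0 := hpp.ne_zero
  rw [map_mul] at hφ
  have hφa : φ a ≠ 0 := left_ne_zero_of_mul hφ
  have hφκ : φ κ ≠ 0 := right_ne_zero_of_mul hφ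
  have hφt : ∀ j, φ (t j) ≠ 0 := by
    intro j h
    apply hφκ
    rw [hκ j, map_mul, map_mul, h, mul_zero, zero_mul]
  set fk := fS m H w (φ κ) (MvPolynomial.map φ G) (φ c) (fun i => φ (t i)) with hfk
  set σ : Polynomial k := sg (φ κ) with hσd
  have hσm : (sg κ).map φ = σ := sg_map φ κ
  have hσ0 : σ ≠ 0 := by
    rw [hσd]
    unfold sg
    exact mul_ne_zero (Polynomial.C_ne_zero.mpr hφκ) Polynomial.X_ne_zero
  have hσc : (σ : PowerSeries k) = PowerSeries.C (φ κ) * PowerSeries.X := by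
    rw [hσd]
    unfold sg
    rw [Polynomial.coe_mul, Polynomial.coe_C, Polynomial.coe_X]
  have hσp : PowerSeries.expand p hp (σ : PowerSeries k) = (σ : PowerSeries k) ^ p := by
    rw [hσc, map_mul, PowerSeries.expand_C, PowerSeries.expand_X, mul_pow, ← map_pow, hk]
  have hid := det_id hF hC p hp hk w hw he σ hσ0 hσp fk
    (fun j => MvPolynomial.map (Polynomial.mapRingHom φ) (FS m H w κ G c t j))
    (fun j => φ (t j)) (fun j => PowerSeries.map (LPm φ) (ψ j))
    (fun j => PowerSeries.map (LPm φ) (1 + (m : PowerSeries (LP ι A)) ^ 2 *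
        (yP m H w κ G c t kj j : PowerSeries (LP ι A))))
    (by
      intro j
      have h1 := Lam_map (Polynomial.mapRingHom φ) (sg κ) (w j) (FS m H w κ G c t j)
      rw [sg_map] at h1
      rw [h1, Lam_FS m H w κ G c t j (fun v hv => (hH j v hv).le), map_mul, MvPolynomial.map_C,
        map_pow, sg_map, fS_map])
    (by
      intro j
      rw [← map_pow, ← map_mul, hψ j, map_one])
    (by
      intro j
      rw [toL_map, toL_FS m H w κ G c t kj j (hκ j) (hH j) hm1 hw (hw0 j), map_mul, map_mul,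
        cst_map, xm_map, PowerSeries.map_C])
    hsupp
  -- the determinant
  set D := (Fh (sg κ) w ψ).det with hD
  have hDk : (Fh σ w fun j => PowerSeries.map (LPm φ) (ψ j)).det = PowerSeries.map φ D := by
    rw [← hσm, Fh_map, hD, RingHom.map_det]
    rfl
  rw [hDk] at hid
  obtain ⟨N, hN⟩ : ∃ N, N = (p - 1) * ∑ i, nsq (w i) := ⟨_, rfl⟩
  rw [← hN, hσc, mul_pow] at hid
  set u := PowerSeries.expand p hp (PowerSeries.map φ D) with hu
  have hu1 : constantCoeff u = 1 := by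
    rw [hu, PowerSeries.constantCoeff_expand, ← PowerSeries.coeff_zero_eq_constantCoeff_apply,
      PowerSeries.coeff_map, PowerSeries.coeff_zero_eq_constantCoeff_apply, hD1, map_one]
  have huu : u * u⁻¹ = 1 := PowerSeries.mul_inv_cancel u (by rw [hu1]; exact one_ne_zero)
  set dk := (hm e p w fk).det with hdk
  set Gs : PowerSeries k := PowerSeries.C (φ κ) ^ N * (∏ j, PowerSeries.C (φ (t j) ^ e)) * u⁻¹
    with hGs
  have h1 : (dk : PowerSeries k) = PowerSeries.X ^ N * (Gs * PowerSeries.map φ D) := by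
    calc (dk : PowerSeries k) = (u * u⁻¹) * dk := by rw [huu, one_mul]
      _ = u⁻¹ * (u * dk) := by ring
      _ = _ := by
        rw [← hid, hGs]
        ring
  have hdvd : Polynomial.X ^ N ∣ dk := by
    rw [Polynomial.X_pow_dvd_iff]
    intro d hd
    have h2 := congrArg (PowerSeries.coeff d) h1
    rw [Polynomial.coeff_coe, PowerSeries.coeff_X_pow_mul', if_neg (by omega)] at h2
    exact h2
  obtain ⟨P, hP⟩ := hdvd
  have hP1 : (P : PowerSeries k) = Gs * PowerSeries.map φ D := by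
    have h2 : (PowerSeries.X : PowerSeries k) ^ N ≠ 0 := pow_ne_zero _ PowerSeries.X_ne_zero
    apply mul_left_cancel₀ h2
    rw [← h1, hP, Polynomial.coe_mul, Polynomial.coe_pow, Polynomial.coe_X]
  refine hS p k φ hpp hp0 hφa P Gs ?_ ?_ hP1 ?_ T ?_
  · -- derivative
    have h2 : d⁄dX k u = 0 := deriv_expand p hp _
    have h3 : d⁄dX k (PowerSeries.C (φ κ ^ N * ∏ j, φ (t j) ^ e)) = 0 :=
      PowerSeries.derivative_C
    have h4 : Gs = PowerSeries.C (φ κ ^ N * ∏ j, φ (t j) ^ e) * u⁻¹ := by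
      rw [hGs, map_mul, map_pow, map_prod]
    rw [h4, Derivation.leibniz, h3, smul_zero, add_zero, PowerSeries.derivative_inv', h2, mul_zero,
      smul_zero]
  · -- constant coefficient
    rw [hGs, map_mul, map_mul, map_pow, PowerSeries.constantCoeff_C, map_prod]
    refine mul_ne_zero (mul_ne_zero (pow_ne_zero _ hφκ) ?_) ?_
    · rw [prod_ne_zero_iff]
      intro j _
      rw [PowerSeries.constantCoeff_C]
      exact pow_ne_zero _ (hφt j)
    · rw [PowerSeries.constantCoeff_inv, hu1]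
      exact inv_ne_zero one_ne_zero
  · -- degree
    have h2 : P.natDegree ≤ dk.natDegree := by
      by_cases hP0 : P = 0
      · rw [hP0, Polynomial.natDegree_zero]
        exact Nat.zero_le _
      · rw [hP, Polynomial.natDegree_mul (pow_ne_zero _ Polynomial.X_ne_zero) hP0]
        omega
    refine h2.trans ((natDegree_det_hm (natDegree_fS m H w _ _ _ _ hHn) e p w).trans ?_)
    have h3 : e ≤ p := by
      have : e ≤ e * m := Nat.le_mul_of_pos_right e (by omega)
      omega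
    calc Fintype.card J * (e * H) ≤ Fintype.card J * (p * H) :=
          Nat.mul_le_mul_left _ (Nat.mul_le_mul_right _ h3)
      _ = _ := by ring
  · intro s hs
    obtain ⟨hs0, hs1⟩ := hT s hs
    refine ⟨hk s, ?_⟩
    rw [det_hm_map, Polynomial.coe_evalRingHom] at hs1
    rw [← hdk, hP, Polynomial.eval_mul, Polynomial.eval_pow, Polynomial.eval_X] at hs1
    exact (mul_eq_zero.mp hs1).resolve_left (pow_ne_zero _ hs0)

end main

end Pool.Agent.Q267.ST

namespace Pool.Agent.Q267.ST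

open PowerSeries
open Pool.Agent.Q267.DC (nsq hm)

/-- The statement of `soft_fam`. -/
def S_Fam : Prop :=
  ∀ (ι J : Type) [Fintype ι] [DecidableEq ι] [Fintype J] [DecidableEq J] (A : Type) [CommRing A]
    [IsDomain A] [CharZero A] (m H : ℕ), m = 1 ∨ m = 2 → ∀ (w : J → ι →₀ ℕ),
    Function.Injective w → ∀ (κ : A), κ ≠ 0 → ∀ (G : MvPolynomial ι A) (c : A) (t kj : J → A),
    (∀ j, κ = (m : A) ^ 2 * t j * kj j) →
    (∀ j, ∀ v ∈ G.support, 2 * dotp (w j) v < H + m * nsq (w j)) →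
    (∀ j, m * nsq (w j) ≤ H) → (∀ j, 1 ≤ nsq (w j)) → ∀ ε : ℝ, 0 < ε →
    ∃ (p₀ : ℕ) (a : A), a ≠ 0 ∧ ∀ (p : ℕ) (k : Type) [Field k] [CharP k p] (φ : A →+* k),
      p.Prime → p₀ ≤ p → φ a ≠ 0 → (∀ x : k, x ^ p = x) → ∀ e : ℕ, e * m + 1 = p →
      (∀ l, ∀ v ∈ (MvPolynomial.monomial (w l) 1 *
        (fS m H w (φ κ) (MvPolynomial.map φ G) (φ c) fun i => φ (t i)) ^ e).support,
        (∃ v' : ι →₀ ℕ, v = p • v') → ∃ i : J, v = p • w i) →
      ∀ T : Finset k, (∀ s ∈ T, s ≠ 0 ∧ (hm e p w (MvPolynomial.map (Polynomial.evalRingHom s)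
        (fS m H w (φ κ) (MvPolynomial.map φ G) (φ c) fun i => φ (t i)))).det = 0) →
      (T.card : ℝ) ≤ ε * p

theorem fam (hSoft : S_Soft) (hLip : S_Lip) (hadd : S_DFadd) (hmul : S_DFmul)
    (hpoly : S_DFpoly) (hof : S_DFofODE) (hto : S_DFtoODE) (hroot : S_Root) (hF : S_Frob)
    (hC : S_CxMul) : S_Fam := by
  intro ι J _ _ _ _ A _ _ _ m H hm12 w hw κ hκ0 G c t kj hκ hH hHn hw0 ε hε
  exact soft_fam hSoft hLip hadd hmul hpoly hof hto hroot hF hC m H hm12 w hw κ hκ0 G c t kj hκ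
    hH hHn hw0 ε hε

end Pool.Agent.Q267.ST
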