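import Mathlib

/-!
# Definitions for the soft Stepanov method
-/

set_option autoImplicit false

open Finset

namespace Pool.Agent.Q267.ST

open PowerSeries

/-- The operator `c ↦ q c' + M c` on vectors of polynomials. -/
noncomputable def opL {R : Type} [CommRing R] {I : Type} [Fintype I] (q : Polynomial R)
    (M : I → I → Polynomial R) (c : I → Polynomial R) : I → Polynomial R :=
  fun e => q * Polynomial.derivative (c e) + ∑ e', M e e' * c e'

/-- `f` is a solution of a linear differential equation with polynomial coefficients. -/
def HasODE {A : Type} [CommRing A] (f : PowerSeries A) : Prop :=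
  ∃ (r : ℕ) (c : ℕ → Polynomial A), c r ≠ 0 ∧
    ∑ l ∈ range (r + 1), (c l : PowerSeries A) * (d⁄dX A)^[l] f = 0

/-- The derivatives of `f` are contained in a module of finite rank. -/
def DFin {A : Type} [CommRing A] (f : PowerSeries A) : Prop :=
  ∃ (N : ℕ) (w : Fin N → PowerSeries A), ∀ n : ℕ, ∃ (q : Polynomial A) (c : Fin N → Polynomial A),
    q ≠ 0 ∧ (q : PowerSeries A) * (d⁄dX A)^[n] f = ∑ i, (c i : PowerSeries A) * w i

/-- The Laurent polynomials. -/
abbrev LP (ι A : Type) [CommRing A] : Type := AddMonoidAlgebra A (ι → ℤ)

/-- The Laurent monomial `x ^ u`, as a power series in `S` over the Laurent polynomials. -/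
noncomputable def xm {ι A : Type} [CommRing A] (u : ι → ℤ) : PowerSeries (LP ι A) :=
  PowerSeries.C (AddMonoidAlgebra.single u 1)

/-- The coefficient of `x ^ u`, a power series in `S`. -/
noncomputable def cx {ι A : Type} [CommRing A] (u : ι → ℤ) (F : PowerSeries (LP ι A)) :
    PowerSeries A :=
  PowerSeries.mk fun n => (PowerSeries.coeff n F).coeff u

/-- The constants `A⟦S⟧` in the power series over the Laurent polynomials. -/
noncomputable def cst {ι A : Type} [CommRing A] :
    PowerSeries A →+* PowerSeries (LP ι A) :=
  PowerSeries.map (algebraMap A (LP ι A))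

/-- The exponents as integers. -/
def zexp {ι : Type} (v : ι →₀ ℕ) : ι → ℤ := fun i => (v i : ℤ)

/-- Polynomials in `x` over `A[S]` as power series over the Laurent polynomials. -/
noncomputable def toL {ι A : Type} [DecidableEq ι] [CommRing A] :
    MvPolynomial ι (Polynomial A) →+* PowerSeries (LP ι A) :=
  MvPolynomial.eval₂Hom (cst.comp (Polynomial.coeToPowerSeries.ringHom (R := A)))
    fun i => xm (Pi.single i 1)

end Pool.Agent.Q267.ST
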