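import Pool.Agent.Q267.ST.Scale

/-!
# The Frobenius structure of the Hasse-Witt determinant
-/

set_option autoImplicit false

open Finset

namespace Pool.Agent.Q267.ST

open PowerSeries
open Pool.Agent.Q267.DC (nsq hm)

/-- The normalised matrix of coefficients. -/
noncomputable def Fh {ι J k : Type} [Fintype ι] [CommRing k] (σ : Polynomial k)
    (w : J → ι →₀ ℕ) (Ψ : J → PowerSeries (LP ι k)) : Matrix J J (PowerSeries k) :=
  Matrix.of fun j i => (σ : PowerSeries k) ^ dst (w j) (w i) *
    cx (zexp (w j) - zexp (w i)) (Ψ j)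

section star

variable {ι J : Type} [Fintype ι] [DecidableEq ι] [Fintype J] [DecidableEq J]
variable {k : Type} [Field k]

omit [Fintype ι] [DecidableEq ι] in
lemma zexp_smul (n : ℕ) (v : ι →₀ ℕ) : zexp (n • v) = n • zexp v := by
  funext i
  simp [zexp]

omit [Fintype ι] [DecidableEq ι] in
lemma zexp_inj {u v : ι →₀ ℕ} (h : zexp u = zexp v) : u = v := by
  ext i
  have := congrFun h i
  unfold zexp at this
  exact_mod_cast this

omit [DecidableEq J] in
/-- The basic identity. -/
lemma star (hF : S_Frob) (hC : S_CxMul) (p : ℕ) [Fact p.Prime] [CharP k p] (hp : p ≠ 0)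
    (hk : ∀ a : k, a ^ p = a) (w : J → ι →₀ ℕ) (hw : Function.Injective w) {m e : ℕ}
    (he : e * m + 1 = p) (F : MvPolynomial ι (Polynomial k)) (t : k) (Ψ g : PowerSeries (LP ι k))
    (j l : J) (hΨ : Ψ ^ m * g = 1)
    (hFg : toL F = cst (PowerSeries.C t) * xm (m • zexp (w j)) * g)
    (hsupp : ∀ v ∈ (MvPolynomial.monomial (w l) 1 * F ^ e).support, (∃ v', v = p • v') →
      ∃ i, v = p • w i) :
    PowerSeries.C (t ^ e) * cx (zexp (w j) - zexp (w l)) Ψ =
      ∑ i, PowerSeries.expand p hp (cx (zexp (w j) - zexp (w i)) Ψ) *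
        ((hm e p w F i l : Polynomial k) : PowerSeries k) := by
  classical
  set F₁ := MvPolynomial.monomial (w l) 1 * F ^ e with hF₁
  have h1 : Ψ = Ψ ^ p * g ^ e := by
    have h2 : Ψ ^ p * g ^ e = Ψ * (Ψ ^ m * g) ^ e := by
      rw [mul_pow, ← pow_mul, ← he, pow_succ, mul_comm e m]
      ring
    rw [h2, hΨ, one_pow, mul_one]
  have h2 : cst (PowerSeries.C (t ^ e)) * (xm (e • m • zexp (w j) + zexp (w l)) * Ψ) =
      Ψ ^ p * toL F₁ := by
    rw [hF₁, map_mul, map_pow toL F e, hFg, toL_monomial, xm_add, mul_pow, mul_pow, xm_pow]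
    have h3 : cst (PowerSeries.C (t ^ e)) = (cst (PowerSeries.C t) : PowerSeries (LP ι k)) ^ e := by
      rw [← map_pow, ← map_pow]
    have h4 : (cst ((1 : Polynomial k) : PowerSeries k) : PowerSeries (LP ι k)) = 1 := by
      rw [Polynomial.coe_one, map_one]
    rw [h3, h4]
    conv_lhs => rw [h1]
    ring
  have h3 := congrArg (cx (p • zexp (w j))) h2
  rw [cx_cst_mul, cx_xm_mul, hC] at h3
  have h4 : p • zexp (w j) - (e • m • zexp (w j) + zexp (w l)) = zexp (w j) - zexp (w l) := by
    funext i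
    simp only [Pi.sub_apply, Pi.add_apply, Pi.smul_apply]
    simp only [nsmul_eq_mul]
    rw [← he]
    push_cast
    ring
  rw [h4] at h3
  rw [h3]
  -- reorganise
  have h5 : ∀ i, PowerSeries.expand p hp (cx (zexp (w j) - zexp (w i)) Ψ) *
      ((hm e p w F i l : Polynomial k) : PowerSeries k) =
      cx (p • zexp (w j) - zexp (p • w i)) (Ψ ^ p) *
        ((MvPolynomial.coeff (p • w i) F₁ : Polynomial k) : PowerSeries k) := by
    intro i
    rw [zexp_smul, ← smul_sub, (hF ι k p hp Ψ hk).1]
    rfl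
  rw [sum_congr rfl fun i _ => h5 i]
  have hpw : Function.Injective fun i => p • w i := by
    intro i i' h
    apply hw
    ext a
    have := DFunLike.congr_fun h a
    rw [Finsupp.smul_apply, Finsupp.smul_apply, smul_eq_mul, smul_eq_mul] at this
    exact Nat.eq_of_mul_eq_mul_left (Nat.pos_of_ne_zero hp) this
  rw [← sum_image (s := univ) (g := fun i => p • w i)
    (f := fun v => cx (p • zexp (w j) - zexp v) (Ψ ^ p) *
        ((MvPolynomial.coeff v F₁ : Polynomial k) : PowerSeries k))
    (fun i _ i' _ h => hpw h)]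
  have h6 : ∀ v ∈ F₁.support, v ∉ univ.image (fun i => p • w i) →
      cx (p • zexp (w j) - zexp v) (Ψ ^ p) *
        ((MvPolynomial.coeff v F₁ : Polynomial k) : PowerSeries k) = 0 := by
    intro v hv hvi
    rw [(hF ι k p hp Ψ hk).2, zero_mul]
    intro u hu
    apply hvi
    rw [mem_image]
    obtain ⟨i, hi⟩ := hsupp v hv (by
      refine ⟨Finsupp.equivFunOnFinite.symm fun a => ((w j a : ℤ) - u a).toNat, ?_⟩
      ext a
      rw [Finsupp.smul_apply, Finsupp.equivFunOnFinite_symm_apply_apply, smul_eq_mul]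
      have h7 := congrFun hu a
      simp only [Pi.sub_apply, Pi.smul_apply, zexp] at h7
      simp only [nsmul_eq_mul] at h7
      have h8 : (v a : ℤ) = p * ((w j a : ℤ) - u a) := by linarith
      have h9 : 0 ≤ (w j a : ℤ) - u a := by
        by_contra h10
        push Not at h10
        have h11 : (0 : ℤ) < p := by exact_mod_cast Nat.pos_of_ne_zero hp
        have h12 : (v a : ℤ) < 0 := by rw [h8]; exact mul_neg_of_pos_of_neg h11 h10
        have h13 : (0 : ℤ) ≤ v a := by positivity
        linarith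
      zify
      rw [Int.toNat_of_nonneg h9, h8])
    exact ⟨i, mem_univ _, hi.symm⟩
  rw [← sum_filter_add_sum_filter_not F₁.support (fun v => v ∈ univ.image (fun i => p • w i)),
    sum_eq_zero (s := F₁.support.filter fun v => v ∉ univ.image (fun i => p • w i)), add_zero]
  · refine sum_subset ?_ ?_
    · intro v hv
      exact (mem_filter.mp hv).2
    · intro v hv hv'
      have h7 : v ∉ F₁.support := fun h => hv' (mem_filter.mpr ⟨h, hv⟩)
      rw [MvPolynomial.notMem_support_iff.mp h7, Polynomial.coe_zero, mul_zero]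
  · intro v hv
    obtain ⟨h7, h8⟩ := mem_filter.mp hv
    exact h6 v h7 h8

omit [DecidableEq ι] [Fintype J] [DecidableEq J] in
lemma Lam_pow (σ : Polynomial k) (w : J → ι →₀ ℕ) {m : ℕ} (e : ℕ)
    (f F : MvPolynomial ι (Polynomial k)) (j l : J)
    (hL : Lam σ (w j) F = MvPolynomial.C (σ ^ (m * nsq (w j))) * f) (v : ι →₀ ℕ) :
    σ ^ (2 * dotp (w j) v) * MvPolynomial.coeff v (MvPolynomial.monomial (w l) 1 * F ^ e) =
      σ ^ (2 * dotp (w j) (w l) + e * m * nsq (w j)) *
        MvPolynomial.coeff v (MvPolynomial.monomial (w l) 1 * f ^ e) := by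
  rw [← coeff_Lam, map_mul, map_pow, hL, Lam_monomial, mul_one, mul_pow, ← map_pow]
  have h1 : MvPolynomial.monomial (w l) (σ ^ (2 * dotp (w j) (w l))) =
      MvPolynomial.C (σ ^ (2 * dotp (w j) (w l))) * MvPolynomial.monomial (w l) (1 : Polynomial k) := by
    rw [MvPolynomial.C_mul_monomial, mul_one]
  rw [h1]
  have h2 : MvPolynomial.C (σ ^ (2 * dotp (w j) (w l))) *
      MvPolynomial.monomial (w l) (1 : Polynomial k) *
        (MvPolynomial.C ((σ ^ (m * nsq (w j))) ^ e) * f ^ e) =
      MvPolynomial.C (σ ^ (2 * dotp (w j) (w l) + e * m * nsq (w j))) *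
        (MvPolynomial.monomial (w l) (1 : Polynomial k) * f ^ e) := by
    rw [pow_add, ← pow_mul, show m * nsq (w j) * e = e * m * nsq (w j) by ring, map_mul]
    ring
  rw [h2, MvPolynomial.coeff_C_mul]

/-- **The Frobenius structure.** -/
theorem det_id (hF : S_Frob) (hC : S_CxMul) (p : ℕ) [Fact p.Prime] [CharP k p] (hp : p ≠ 0)
    (hk : ∀ a : k, a ^ p = a) (w : J → ι →₀ ℕ) (hw : Function.Injective w) {m e : ℕ}
    (he : e * m + 1 = p) (σ : Polynomial k) (hσ0 : σ ≠ 0)
    (hσ : PowerSeries.expand p hp (σ : PowerSeries k) = (σ : PowerSeries k) ^ p)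
    (f : MvPolynomial ι (Polynomial k)) (F : J → MvPolynomial ι (Polynomial k)) (t : J → k)
    (Ψ g : J → PowerSeries (LP ι k))
    (hL : ∀ j, Lam σ (w j) (F j) = MvPolynomial.C (σ ^ (m * nsq (w j))) * f)
    (hΨ : ∀ j, Ψ j ^ m * g j = 1)
    (hFg : ∀ j, toL (F j) = cst (PowerSeries.C (t j)) * xm (m • zexp (w j)) * g j)
    (hsupp : ∀ l, ∀ v ∈ (MvPolynomial.monomial (w l) 1 * f ^ e).support, (∃ v', v = p • v') →
      ∃ i, v = p • w i) :
    (σ : PowerSeries k) ^ ((p - 1) * ∑ i, nsq (w i)) * (∏ j, PowerSeries.C (t j ^ e)) *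
        (Fh σ w Ψ).det =
      PowerSeries.expand p hp (Fh σ w Ψ).det *
        (((hm e p w f).det : Polynomial k) : PowerSeries k) := by
  classical
  set s : PowerSeries k := (σ : PowerSeries k) with hs
  have hs0 : s ≠ 0 := by
    rw [hs]
    intro h
    apply hσ0
    exact Polynomial.coe_eq_zero_iff.mp h
  obtain ⟨E, hE⟩ : ∃ E, E = ∑ i, nsq (w i) := ⟨_, rfl⟩
  have hEi : ∀ i, nsq (w i) ≤ E := fun i => by
    rw [hE]
    exact single_le_sum (f := fun i => nsq (w i)) (fun _ _ => Nat.zero_le _) (mem_univ i)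
  rw [← hE]
  -- entries
  have hent : ∀ j i l, s ^ (2 * p * dotp (w j) (w i)) *
      ((hm e p w (F j) i l : Polynomial k) : PowerSeries k) =
      s ^ (2 * dotp (w j) (w l) + (p - 1) * nsq (w j)) *
        ((hm e p w f i l : Polynomial k) : PowerSeries k) := by
    intro j i l
    have h1 := Lam_pow σ w e f (F j) j l (hL j) (p • w i)
    rw [dotp_smul, show 2 * (p * dotp (w j) (w i)) = 2 * p * dotp (w j) (w i) by ring,
      show e * m = p - 1 by omega] at h1
    have h2 := congrArg (fun P : Polynomial k => (P : PowerSeries k)) h1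
    simp only [Polynomial.coe_mul, Polynomial.coe_pow] at h2
    exact h2
  have hstar : ∀ j l, PowerSeries.C (t j ^ e) * cx (zexp (w j) - zexp (w l)) (Ψ j) =
      ∑ i, PowerSeries.expand p hp (cx (zexp (w j) - zexp (w i)) (Ψ j)) *
        ((hm e p w (F j) i l : Polynomial k) : PowerSeries k) := by
    intro j l
    refine star hF hC p hp hk w hw he (F j) (t j) (Ψ j) (g j) j l (hΨ j) (hFg j) ?_
    intro v hv hv'
    refine hsupp l v ?_ hv'
    rw [MvPolynomial.mem_support_iff] at hv ⊢
    intro h0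
    have h1 := Lam_pow σ w e f (F j) j l (hL j) v
    rw [h0, mul_zero] at h1
    rcases mul_eq_zero.mp h1 with h2 | h2
    · exact absurd h2 (pow_ne_zero _ hσ0)
    · exact hv h2
  -- the matrix identity, entrywise
  have hmat : ∀ j l, s ^ (p * E) * (PowerSeries.C (t j ^ e) * Fh σ w Ψ j l) =
      ∑ i, PowerSeries.expand p hp (Fh σ w Ψ j i) * (s ^ (p * (E - nsq (w i))) *
        ((hm e p w f i l : Polynomial k) : PowerSeries k) * s ^ nsq (w l)) := by
    intro j l
    have hc : s ^ (p * nsq (w j)) ≠ 0 := pow_ne_zero _ hs0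
    apply mul_left_cancel₀ hc
    rw [Finset.mul_sum]
    have h1 : s ^ (p * nsq (w j)) * (s ^ (p * E) * (PowerSeries.C (t j ^ e) * Fh σ w Ψ j l)) =
        s ^ (p * nsq (w j) + p * E + dst (w j) (w l)) *
          (PowerSeries.C (t j ^ e) * cx (zexp (w j) - zexp (w l)) (Ψ j)) := by
      unfold Fh
      rw [Matrix.of_apply, pow_add, pow_add]
      ring
    rw [h1, hstar, Finset.mul_sum]
    refine sum_congr rfl fun i _ => ?_
    have h2 : PowerSeries.expand p hp (Fh σ w Ψ j i) = s ^ (p * dst (w j) (w i)) *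
        PowerSeries.expand p hp (cx (zexp (w j) - zexp (w i)) (Ψ j)) := by
      unfold Fh
      rw [Matrix.of_apply, map_mul, map_pow, hσ, ← pow_mul]
    rw [h2]
    have h3 := hent j i l
    have h4 := dst_dot (w j) (w i)
    have h5 := dst_dot (w j) (w l)
    have h6 := hEi i
    have hp1 : 1 ≤ p := Nat.pos_of_ne_zero hp
    -- exponents
    have h7 : p * nsq (w j) + p * E + dst (w j) (w l) =
        p * dst (w j) (w i) + p * (E - nsq (w i)) + dst (w j) (w l) +
          2 * p * dotp (w j) (w i) := by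
      zify [h6] at *
      linear_combination (p : ℤ) * (-h4)
    have h8 : dst (w j) (w l) + (2 * dotp (w j) (w l) + (p - 1) * nsq (w j)) =
        p * nsq (w j) + nsq (w l) := by
      zify [hp1] at *
      linear_combination h5
    calc s ^ (p * nsq (w j) + p * E + dst (w j) (w l)) *
          (PowerSeries.expand p hp (cx (zexp (w j) - zexp (w i)) (Ψ j)) *
            ((hm e p w (F j) i l : Polynomial k) : PowerSeries k)) =
        s ^ (p * dst (w j) (w i)) * PowerSeries.expand p hp (cx (zexp (w j) - zexp (w i)) (Ψ j)) *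
          s ^ (p * (E - nsq (w i))) * s ^ dst (w j) (w l) *
            (s ^ (2 * p * dotp (w j) (w i)) *
              ((hm e p w (F j) i l : Polynomial k) : PowerSeries k)) := by
          rw [h7, pow_add, pow_add, pow_add]
          ring
      _ = s ^ (p * dst (w j) (w i)) *
          PowerSeries.expand p hp (cx (zexp (w j) - zexp (w i)) (Ψ j)) *
          s ^ (p * (E - nsq (w i))) *
          s ^ (dst (w j) (w l) + (2 * dotp (w j) (w l) + (p - 1) * nsq (w j))) *
            ((hm e p w f i l : Polynomial k) : PowerSeries k) := by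
          rw [h3, pow_add s (dst (w j) (w l))]
          ring
      _ = _ := by
          rw [h8, pow_add]
          ring
  -- the determinants
  have hM : (s ^ (p * E)) • (Matrix.diagonal (fun j => PowerSeries.C (t j ^ e)) * Fh σ w Ψ) =
      (Fh σ w Ψ).map (PowerSeries.expand p hp) *
        (Matrix.diagonal (fun i => s ^ (p * (E - nsq (w i)))) *
          (hm e p w f).map (Polynomial.coeToPowerSeries.ringHom (R := k)) *
            Matrix.diagonal fun l => s ^ nsq (w l)) := by
    ext1 j l
    rw [Matrix.smul_apply, Matrix.diagonal_mul, smul_eq_mul, hmat, Matrix.mul_apply]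
    refine sum_congr rfl fun i _ => ?_
    rw [Matrix.map_apply, Matrix.mul_diagonal, Matrix.diagonal_mul, Matrix.map_apply]
    rfl
  have hd := congrArg Matrix.det hM
  rw [Matrix.det_smul, Matrix.det_mul, Matrix.det_mul, Matrix.det_mul, Matrix.det_mul,
    Matrix.det_diagonal, Matrix.det_diagonal, Matrix.det_diagonal] at hd
  have h1 : ((Fh σ w Ψ).map (PowerSeries.expand p hp)).det =
      PowerSeries.expand p hp (Fh σ w Ψ).det := by
    rw [AlgHom.map_det]
    rfl
  have h2 : ((hm e p w f).map (Polynomial.coeToPowerSeries.ringHom (R := k))).det =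
      (((hm e p w f).det : Polynomial k) : PowerSeries k) := by
    have := RingHom.map_det (Polynomial.coeToPowerSeries.ringHom (R := k)) (hm e p w f)
    rw [Polynomial.coeToPowerSeries.ringHom_apply] at this
    rw [this]
    rfl
  rw [h1, h2, Finset.prod_pow_eq_pow_sum, Finset.prod_pow_eq_pow_sum, ← hE] at hd
  -- cancel
  have h3 : ∑ i : J, p * (E - nsq (w i)) + p * E = p * E * Fintype.card J := by
    rw [← Finset.mul_sum]
    have h4 : ∑ i : J, (E - nsq (w i)) + E = E * Fintype.card J := by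
      have h5 : ∑ i : J, (E - nsq (w i)) + E = ∑ i : J, (E - nsq (w i)) + ∑ i, nsq (w i) :=
        congrArg _ hE
      rw [h5, ← sum_add_distrib, sum_congr rfl fun i _ => Nat.sub_add_cancel (hEi i), sum_const,
        card_univ, smul_eq_mul, mul_comm]
    calc p * ∑ i : J, (E - nsq (w i)) + p * E = p * (∑ i : J, (E - nsq (w i)) + E) := by ring
      _ = _ := by rw [h4]; ring
  have hc : s ^ (∑ i : J, p * (E - nsq (w i))) * s ^ E ≠ 0 :=
    mul_ne_zero (pow_ne_zero _ hs0) (pow_ne_zero _ hs0)
  apply mul_left_cancel₀ hc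
  have hp1 : (p - 1) * E + E = p * E := by
    have : 1 ≤ p := Nat.pos_of_ne_zero hp
    zify [this]
    ring
  calc s ^ (∑ i : J, p * (E - nsq (w i))) * s ^ E *
        (s ^ ((p - 1) * E) * (∏ j, PowerSeries.C (t j ^ e)) * (Fh σ w Ψ).det) =
      s ^ (∑ i : J, p * (E - nsq (w i)) + ((p - 1) * E + E)) *
        ((∏ j, PowerSeries.C (t j ^ e)) * (Fh σ w Ψ).det) := by
        rw [pow_add, pow_add]
        ring
    _ = (s ^ (p * E)) ^ Fintype.card J *
        ((∏ j, PowerSeries.C (t j ^ e)) * (Fh σ w Ψ).det) := by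
        rw [hp1, h3, ← pow_mul]
    _ = _ := by
        rw [hd]
        ring

end star

end Pool.Agent.Q267.ST
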