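import Pool.Agent.Q267.ST.Det

/-!
# The family and its normalisations at the torus orbits
-/

set_option autoImplicit false

open Finset

namespace Pool.Agent.Q267.ST

open PowerSeries
open Pool.Agent.Q267.DC (nsq hm)

section fam

variable {ι J : Type} [Fintype ι] [DecidableEq ι] [Fintype J] [DecidableEq J]
variable {A : Type} [CommRing A]

/-- The scaling parameter `κ S`. -/
noncomputable def sg (κ : A) : Polynomial A := Polynomial.C κ * Polynomial.X

/-- The family over `A[S]`. -/
noncomputable def fS (m H : ℕ) (w : J → ι →₀ ℕ) (κ : A) (G : MvPolynomial ι A) (c : A) (t : J → A) :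
    MvPolynomial ι (Polynomial A) :=
  MvPolynomial.C (sg κ ^ H) * MvPolynomial.map Polynomial.C G +
    MvPolynomial.C (Polynomial.C c) +
    ∑ i, MvPolynomial.monomial (m • w i) (Polynomial.C (t i) * sg κ ^ (m * nsq (w i)))

/-- The normalisation at `w j`. -/
noncomputable def FS (m H : ℕ) (w : J → ι →₀ ℕ) (κ : A) (G : MvPolynomial ι A) (c : A) (t : J → A)
    (j : J) : MvPolynomial ι (Polynomial A) :=
  ∑ v ∈ G.support, MvPolynomial.monomial v (Polynomial.C (MvPolynomial.coeff v G) *
      sg κ ^ (H + m * nsq (w j) - 2 * dotp (w j) v)) +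
    MvPolynomial.C (Polynomial.C c * sg κ ^ (m * nsq (w j))) +
    ∑ i, MvPolynomial.monomial (m • w i) (Polynomial.C (t i) * sg κ ^ (m * dst (w j) (w i)))

omit [DecidableEq ι] [DecidableEq J] in
lemma Lam_FS (m H : ℕ) (w : J → ι →₀ ℕ) (κ : A) (G : MvPolynomial ι A) (c : A) (t : J → A) (j : J)
    (hH : ∀ v ∈ G.support, 2 * dotp (w j) v ≤ H + m * nsq (w j)) :
    Lam (sg κ) (w j) (FS m H w κ G c t j) =
      MvPolynomial.C (sg κ ^ (m * nsq (w j))) * fS m H w κ G c t := by
  unfold FS fS
  rw [map_add, map_add, map_sum, map_sum, mul_add, mul_add]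
  congr 1
  · congr 1
    · have h1 : MvPolynomial.map (Polynomial.C : A →+* Polynomial A) G =
          ∑ v ∈ G.support, MvPolynomial.monomial v (Polynomial.C (MvPolynomial.coeff v G)) := by
        conv_lhs => rw [G.as_sum]
        rw [map_sum]
        exact sum_congr rfl fun v _ => MvPolynomial.map_monomial _ _ _
      rw [h1, mul_sum, mul_sum]
      refine sum_congr rfl fun v hv => ?_
      rw [Lam_monomial, MvPolynomial.C_mul_monomial, MvPolynomial.C_mul_monomial]
      refine congrArg (MvPolynomial.monomial v) ?_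
      have h2 := hH v hv
      calc sg κ ^ (2 * dotp (w j) v) * (Polynomial.C (MvPolynomial.coeff v G) *
            sg κ ^ (H + m * nsq (w j) - 2 * dotp (w j) v)) =
          Polynomial.C (MvPolynomial.coeff v G) *
            sg κ ^ (2 * dotp (w j) v + (H + m * nsq (w j) - 2 * dotp (w j) v)) := by
            rw [pow_add]
            ring
        _ = _ := by
            rw [Nat.add_sub_cancel' h2, pow_add]
            ring
    · rw [Lam_C, ← map_mul, mul_comm (Polynomial.C c)]
  · rw [mul_sum]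
    refine sum_congr rfl fun i _ => ?_
    rw [Lam_monomial, MvPolynomial.C_mul_monomial, dotp_smul]
    refine congrArg (MvPolynomial.monomial (m • w i)) ?_
    have h1 := dst_dot (w j) (w i)
    have h2 : 2 * (m * dotp (w j) (w i)) + m * dst (w j) (w i) =
        m * nsq (w j) + m * nsq (w i) := by
      rw [← mul_add, ← h1]
      ring
    calc sg κ ^ (2 * (m * dotp (w j) (w i))) * (Polynomial.C (t i) * sg κ ^ (m * dst (w j) (w i))) =
        Polynomial.C (t i) * sg κ ^ (2 * (m * dotp (w j) (w i)) + m * dst (w j) (w i)) := by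
          rw [pow_add]
          ring
      _ = _ := by
          rw [h2, pow_add]
          ring

/-- One term of the perturbation. -/
noncomputable def term (κ kj : A) (u : ι → ℤ) (a : A) (K : ℕ) : Polynomial (LP ι A) :=
  Polynomial.monomial K (AddMonoidAlgebra.single u (kj * a * κ ^ (K - 1)))

/-- The perturbation at `w j`. -/
noncomputable def yP (m H : ℕ) (w : J → ι →₀ ℕ) (κ : A) (G : MvPolynomial ι A) (c : A) (t : J → A)
    (kj : J → A) (j : J) : Polynomial (LP ι A) :=
  ∑ v ∈ G.support, term κ (kj j) (zexp v - m • zexp (w j)) (MvPolynomial.coeff v G)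
      (H + m * nsq (w j) - 2 * dotp (w j) v) +
    term κ (kj j) (-(m • zexp (w j))) c (m * nsq (w j)) +
    ∑ i ∈ univ.erase j, term κ (kj j) (m • zexp (w i) - m • zexp (w j)) (t i)
      (m * dst (w j) (w i))

omit [Fintype ι] [DecidableEq ι] in
lemma term_zero {κ kj : A} {u : ι → ℤ} {a : A} {K : ℕ} (hK : 1 ≤ K) :
    (term κ kj u a K).coeff 0 = 0 := by
  unfold term
  rw [Polynomial.coeff_monomial, if_neg (by omega)]

omit [Fintype ι] [DecidableEq ι] in
lemma coe_monomial_LP (K : ℕ) (b : LP ι A) :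
    ((Polynomial.monomial K b : Polynomial (LP ι A)) : PowerSeries (LP ι A)) =
      PowerSeries.C b * PowerSeries.X ^ K := by
  rw [← Polynomial.C_mul_X_pow_eq_monomial, Polynomial.coe_mul, Polynomial.coe_pow,
    Polynomial.coe_C, Polynomial.coe_X]

omit [Fintype ι] [DecidableEq ι] in
lemma cst_monomial (K : ℕ) (b : A) :
    (cst ((Polynomial.monomial K b : Polynomial A) : PowerSeries A) : PowerSeries (LP ι A)) =
      PowerSeries.C (AddMonoidAlgebra.single 0 b) * PowerSeries.X ^ K := by
  rw [← Polynomial.C_mul_X_pow_eq_monomial, Polynomial.coe_mul, Polynomial.coe_pow,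
    Polynomial.coe_C, Polynomial.coe_X, map_mul, map_pow, cst_C]
  congr 2
  unfold cst
  rw [PowerSeries.map_X]

omit [Fintype ι] [DecidableEq ι] in
lemma LP_term (m : ℕ) {κ kj tj : A} (hκ : κ = (m : A) ^ 2 * tj * kj) (u v : ι → ℤ) (a : A)
    (K' : ℕ) :
    (AddMonoidAlgebra.single 0 tj : LP ι A) * AddMonoidAlgebra.single v 1 * ((m : LP ι A) ^ 2 *
      AddMonoidAlgebra.single (u - v) (kj * a * κ ^ K')) =
    AddMonoidAlgebra.single 0 (a * κ ^ (K' + 1)) * AddMonoidAlgebra.single u 1 := by
  have h1 : (m : LP ι A) ^ 2 = AddMonoidAlgebra.single 0 ((m : A) ^ 2) := by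
    rw [AddMonoidAlgebra.natCast_def, AddMonoidAlgebra.single_pow, smul_zero]
  rw [h1, AddMonoidAlgebra.single_mul_single, AddMonoidAlgebra.single_mul_single,
    AddMonoidAlgebra.single_mul_single, AddMonoidAlgebra.single_mul_single]
  rw [zero_add, zero_add, zero_add, mul_one, mul_one, add_sub_cancel]
  refine congrArg _ ?_
  rw [pow_succ]
  conv_rhs => rw [hκ]
  conv_lhs => rw [hκ]
  ring

omit [Fintype ι] [DecidableEq ι] in
lemma term_mul (m : ℕ) {κ kj tj : A} (hκ : κ = (m : A) ^ 2 * tj * kj) (u v : ι → ℤ) (a : A) {K : ℕ}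
    (hK : 1 ≤ K) :
    cst (PowerSeries.C tj) * xm v * ((m : PowerSeries (LP ι A)) ^ 2 *
      (term κ kj (u - v) a K : PowerSeries (LP ι A))) =
    cst ((Polynomial.C a * sg κ ^ K : Polynomial A) : PowerSeries A) * xm u := by
  obtain ⟨K', rfl⟩ : ∃ K', K = K' + 1 := ⟨K - 1, by omega⟩
  have h1 : (Polynomial.C a * sg κ ^ (K' + 1) : Polynomial A) =
      Polynomial.monomial (K' + 1) (a * κ ^ (K' + 1)) := by
    unfold sg
    rw [mul_pow, ← Polynomial.C_pow, ← mul_assoc, ← Polynomial.C_mul,
      Polynomial.C_mul_X_pow_eq_monomial]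
  rw [h1, cst_monomial]
  unfold term
  rw [coe_monomial_LP, cst_C, Nat.add_sub_cancel]
  unfold xm
  have h2 : ((m : ℕ) : PowerSeries (LP ι A)) = PowerSeries.C (m : LP ι A) := by
    rw [map_natCast]
  rw [h2]
  calc PowerSeries.C (AddMonoidAlgebra.single 0 tj : LP ι A) *
        PowerSeries.C (AddMonoidAlgebra.single v 1) * (PowerSeries.C (m : LP ι A) ^ 2 *
        (PowerSeries.C (AddMonoidAlgebra.single (u - v) (kj * a * κ ^ K')) *
          PowerSeries.X ^ (K' + 1))) =
      PowerSeries.C ((AddMonoidAlgebra.single 0 tj : LP ι A) * AddMonoidAlgebra.single v 1 *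
        ((m : LP ι A) ^ 2 * AddMonoidAlgebra.single (u - v) (kj * a * κ ^ K'))) *
          PowerSeries.X ^ (K' + 1) := by
        simp only [map_mul, map_pow]
        ring
    _ = _ := by
        rw [LP_term m hκ, map_mul]
        ring

/-- The normalisation is a monomial times `1 + m ^ 2 y`. -/
lemma toL_FS (m H : ℕ) (w : J → ι →₀ ℕ) (κ : A) (G : MvPolynomial ι A) (c : A) (t : J → A)
    (kj : J → A) (j : J) (hκ : κ = (m : A) ^ 2 * t j * kj j)
    (hH : ∀ v ∈ G.support, 2 * dotp (w j) v < H + m * nsq (w j)) (hm : 1 ≤ m)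
    (hw : Function.Injective w) (hw0 : 1 ≤ nsq (w j)) :
    toL (FS m H w κ G c t j) = cst (PowerSeries.C (t j)) * xm (m • zexp (w j)) *
      (1 + (m : PowerSeries (LP ι A)) ^ 2 * (yP m H w κ G c t kj j : PowerSeries (LP ι A))) := by
  unfold FS yP
  rw [map_add, map_add, map_sum, map_sum]
  have h0 : ((((∑ v ∈ G.support, term κ (kj j) (zexp v - m • zexp (w j)) (MvPolynomial.coeff v G)
      (H + m * nsq (w j) - 2 * dotp (w j) v)) +
    term κ (kj j) (-(m • zexp (w j))) c (m * nsq (w j)) +
    ∑ i ∈ univ.erase j, term κ (kj j) (m • zexp (w i) - m • zexp (w j)) (t i)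
      (m * dst (w j) (w i)) : Polynomial (LP ι A))) : PowerSeries (LP ι A)) =
      ((∑ v ∈ G.support, (term κ (kj j) (zexp v - m • zexp (w j)) (MvPolynomial.coeff v G)
      (H + m * nsq (w j) - 2 * dotp (w j) v) : PowerSeries (LP ι A))) +
    (term κ (kj j) (-(m • zexp (w j))) c (m * nsq (w j)) : PowerSeries (LP ι A)) +
    ∑ i ∈ univ.erase j, (term κ (kj j) (m • zexp (w i) - m • zexp (w j)) (t i)
      (m * dst (w j) (w i)) : PowerSeries (LP ι A))) := by
    simp only [← Polynomial.coeToPowerSeries.ringHom_apply, map_add, map_sum]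
  rw [h0, mul_add, mul_one, mul_add, mul_add, mul_add, mul_add, mul_sum, mul_sum, mul_sum, mul_sum]
  have h1 : ∀ v ∈ G.support, toL (MvPolynomial.monomial v
      (Polynomial.C (MvPolynomial.coeff v G) * sg κ ^ (H + m * nsq (w j) - 2 * dotp (w j) v))) =
      cst (PowerSeries.C (t j)) * xm (m • zexp (w j)) * ((m : PowerSeries (LP ι A)) ^ 2 *
        (term κ (kj j) (zexp v - m • zexp (w j)) (MvPolynomial.coeff v G)
      (H + m * nsq (w j) - 2 * dotp (w j) v) : PowerSeries (LP ι A))) := by
    intro v hv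
    rw [term_mul m hκ _ _ _ (by have := hH v hv; omega), toL_monomial]
  have h2 : toL (MvPolynomial.C (Polynomial.C c * sg κ ^ (m * nsq (w j))) :
      MvPolynomial ι (Polynomial A)) =
      cst (PowerSeries.C (t j)) * xm (m • zexp (w j)) * ((m : PowerSeries (LP ι A)) ^ 2 *
        (term κ (kj j) (-(m • zexp (w j))) c (m * nsq (w j)) : PowerSeries (LP ι A))) := by
    have h3 := term_mul m hκ (0 : ι → ℤ) (m • zexp (w j)) c (K := m * nsq (w j))
      (Nat.mul_pos hm hw0)
    rw [zero_sub, xm_zero, mul_one] at h3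
    rw [h3, toL_C]
  have h3 : ∀ i ∈ univ.erase j, toL (MvPolynomial.monomial (m • w i)
      (Polynomial.C (t i) * sg κ ^ (m * dst (w j) (w i)))) =
      cst (PowerSeries.C (t j)) * xm (m • zexp (w j)) * ((m : PowerSeries (LP ι A)) ^ 2 *
        (term κ (kj j) (m • zexp (w i) - m • zexp (w j)) (t i)
      (m * dst (w j) (w i)) : PowerSeries (LP ι A))) := by
    intro i hi
    have h4 : w j ≠ w i := fun h => (mem_erase.mp hi).1 (hw h).symm
    rw [term_mul m hκ _ _ _ (Nat.mul_pos hm (dst_pos h4)), toL_monomial, zexp_smul]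
  have h4 : toL (MvPolynomial.monomial (m • w j)
      (Polynomial.C (t j) * sg κ ^ (m * dst (w j) (w j)))) =
      cst (PowerSeries.C (t j)) * xm (m • zexp (w j)) := by
    rw [dst_self, mul_zero, pow_zero, mul_one, toL_monomial, zexp_smul, Polynomial.coe_C]
  rw [← add_sum_erase univ _ (mem_univ j), h4, sum_congr rfl h1, h2, sum_congr rfl h3]
  ring

omit [DecidableEq ι] in
lemma yP_zero (m H : ℕ) (w : J → ι →₀ ℕ) (κ : A) (G : MvPolynomial ι A) (c : A) (t : J → A)
    (kj : J → A) (j : J)
    (hH : ∀ v ∈ G.support, 2 * dotp (w j) v < H + m * nsq (w j)) (hm : 1 ≤ m)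
    (hw : Function.Injective w) (hw0 : 1 ≤ nsq (w j)) :
    (yP m H w κ G c t kj j).coeff 0 = 0 := by
  unfold yP
  rw [Polynomial.coeff_add, Polynomial.coeff_add, Polynomial.finsetSum_coeff,
    Polynomial.finsetSum_coeff, term_zero (Nat.mul_pos hm hw0), add_zero]
  rw [sum_eq_zero fun v hv => term_zero (by have := hH v hv; omega), zero_add]
  refine sum_eq_zero fun i hi => term_zero (Nat.mul_pos hm (dst_pos ?_))
  exact fun h => (mem_erase.mp hi).1 (hw h).symm

end fam

end Pool.Agent.Q267.ST
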