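import Mathlib

/-!
# Weighted homogeneous families
-/

set_option autoImplicit false

open Finset MvPolynomial

namespace Pool.Agent.Q267.ST.Hom

variable {n : ℕ}

/-- The weighted degree of an exponent. -/
def wdeg (a : Fin n → ℕ) (u : Fin n →₀ ℕ) : ℕ := ∑ i, a i * u i

/-- The member `G + ∑_(u ∈ T) t_u x ^ u` of the family. -/
noncomputable def member {R : Type*} [CommRing R] (G : MvPolynomial (Fin n) R)
    (T : Finset (Fin n →₀ ℕ)) (t : T → R) : MvPolynomial (Fin n) R :=
  G + ∑ u : T, monomial u.1 (t u)

/-- The affine cone over `f = 0` is smooth outside of the origin. -/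
def QSmooth {k : Type*} [Field k] (f : MvPolynomial (Fin n) k) : Prop :=
  ∀ ξ : Fin n → AlgebraicClosure k, aeval ξ f = 0 → (∀ i, aeval ξ (pderiv i f) = 0) → ξ = 0

/-- The discriminant. If some member of the family over an algebraically closed field is
quasi-smooth, the other quasi-smooth members contain the complement of a hypersurface `Δ = 0` of the
parameter space, also after reduction. Proof. Let `f_0 = F_τ`, `f_i = ∂_i F_τ`. By the
Nullstellensatz some power of every variable is in the ideal `(f_0, ..., f_n)`, so for a large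
multiple `N` of `∏ a_i` all monomials of weighted degree `N` are in the ideal, and as the `f_j` are
weighted homogeneous the linear map `(g_j) ↦ ∑ g_j f_j` from the vectors of weighted homogeneous
polynomials with `deg g_j + deg f_j = N` to the polynomials of weighted degree `N` is surjective. So
its matrix, which is the value at `τ` of a matrix over `O[T]`, has a maximal minor `Δ` that is not zero
at `τ`. Conversely `Δ(τ') ≠ 0` implies that the monomials `x_i ^ (N / a_i)` are in the ideal of the
member at `τ'`. -/
def S_Disc : Prop :=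
  ∀ (O : Type) [CommRing O] [IsDomain O] (Ω : Type) [Field Ω] [IsAlgClosed Ω] (j : O →+* Ω) (n : ℕ)
    (a : Fin n → ℕ) (D : ℕ), (∀ i, a i ≠ 0) → ∀ G : MvPolynomial (Fin n) O,
    (∀ u ∈ G.support, wdeg a u = D) → ∀ T : Finset (Fin n →₀ ℕ), (∀ u ∈ T, wdeg a u = D) →
    ∀ τ : T → Ω, (∀ ξ : Fin n → Ω, eval ξ (member (map j G) T τ) = 0 →
      (∀ i, eval ξ (pderiv i (member (map j G) T τ)) = 0) → ξ = 0) →
    ∃ Δ : MvPolynomial T O, Δ ≠ 0 ∧ ∀ (k : Type) [Field k] (ρ : O →+* k) (τ' : T → k),
      eval₂ ρ τ' Δ ≠ 0 → QSmooth (member (map ρ G) T τ')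

end Pool.Agent.Q267.ST.Hom
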