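import Pool.Agent.Q267.ST.HDef

/-!
# The Fermat member
-/

set_option autoImplicit false

open Finset MvPolynomial

namespace Pool.Agent.Q267.ST.Hom

open Classical in
/-- The family of all forms of degree `D` in `n` variables contains a smooth one. -/
theorem fermat {K : Type} [Field K] [CharZero K] (n D : ℕ) (hD : 0 < D) :
    ∃ τ : (finsuppAntidiag (univ : Finset (Fin n)) D : Finset (Fin n →₀ ℕ)) → K,
      QSmooth (member (0 : MvPolynomial (Fin n) K) (finsuppAntidiag univ D) τ) := by
  set T : Finset (Fin n →₀ ℕ) := finsuppAntidiag (univ : Finset (Fin n)) D with hT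
  have hmem : ∀ i : Fin n, Finsupp.single i D ∈ T := by
    intro i
    rw [hT, mem_finsuppAntidiag]
    refine ⟨?_, subset_univ _⟩
    rw [Finset.sum_eq_single i]
    · exact Finsupp.single_eq_same
    · intro j _ hj
      exact Finsupp.single_eq_of_ne (by simpa using hj)
    · intro h
      exact absurd (mem_univ i) h
  set τ : T → K := fun u => if ∃ i, u.1 = Finsupp.single i D then 1 else 0 with hτ
  have hinj : Function.Injective fun i : Fin n => (⟨Finsupp.single i D, hmem i⟩ : T) := by
    intro i j h
    have h1 := congrArg Subtype.val h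
    exact Finsupp.single_left_injective hD.ne' h1
  have hform : member (0 : MvPolynomial (Fin n) K) T τ =
      ∑ i : Fin n, monomial (Finsupp.single i D) 1 := by
    unfold member
    rw [zero_add]
    rw [← Finset.sum_subset (Finset.subset_univ
      (univ.image fun i : Fin n => (⟨Finsupp.single i D, hmem i⟩ : T)))]
    · rw [sum_image (fun i _ j _ h => hinj h)]
      refine sum_congr rfl fun i _ => ?_
      have h1 : τ ⟨Finsupp.single i D, hmem i⟩ = 1 := by
        rw [hτ]
        exact if_pos ⟨i, rfl⟩
      rw [h1]
    · intro u _ hu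
      have h1 : τ u = 0 := by
        rw [hτ]
        refine if_neg ?_
        rintro ⟨i, hi⟩
        exact hu (mem_image.mpr ⟨i, mem_univ _, Subtype.ext hi.symm⟩)
      rw [h1, monomial_zero]
  refine ⟨τ, ?_⟩
  intro ξ _ h
  rw [hform] at h
  funext i
  have h1 := h i
  rw [map_sum, map_sum, Finset.sum_eq_single i] at h1
  · rw [pderiv_monomial, Finsupp.single_eq_same, aeval_monomial, one_mul, map_natCast] at h1
    have h2 : (D : AlgebraicClosure K) ≠ 0 := Nat.cast_ne_zero.mpr hD.ne'
    have h3 := (mul_eq_zero.mp h1).resolve_left h2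
    rw [← Finsupp.single_tsub, Finsupp.prod_single_index (h := fun i k => ξ i ^ k) (pow_zero _)] at h3
    exact eq_zero_of_pow_eq_zero h3
  · intro j _ hj
    rw [pderiv_monomial, Finsupp.single_eq_of_ne (by simpa using hj.symm)]
    rw [Nat.cast_zero, mul_zero, monomial_zero, map_zero]
  · intro h3
    exact absurd (mem_univ i) h3

end Pool.Agent.Q267.ST.Hom
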