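import Pool.Agent.Q267.ST.SoftFam
import Pool.Agent.Q267.ST.HDef

/-!
# Weighted homogeneous families: the exponents
-/

set_option autoImplicit false

open Finset MvPolynomial

namespace Pool.Agent.Q267.ST.Hom

open Pool.Agent.Q267.DC (nsq hm nsq_smul)

variable {n : ℕ}

/-- The exponents `w` with `w i ≥ 1` and `m ∑ a i w i = D`. -/
abbrev Exps (m D : ℕ) (a : Fin n → ℕ) :=
  {w : (i : Fin n) → Fin (D + 1) // (∀ i, 0 < (w i : ℕ)) ∧ m * ∑ i, a i * (w i : ℕ) = D}

/-- The exponents as finitely supported functions. -/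
noncomputable def wexp (m D : ℕ) (a : Fin n → ℕ) (w : Exps m D a) : Fin n →₀ ℕ :=
  Finsupp.equivFunOnFinite.symm fun i => (w.1 i : ℕ)

lemma wexp_apply (m D : ℕ) (a : Fin n → ℕ) (w : Exps m D a) (i : Fin n) :
    wexp m D a w i = (w.1 i : ℕ) := rfl

lemma wexp_inj (m D : ℕ) (a : Fin n → ℕ) : Function.Injective (wexp m D a) := by
  intro w w' h
  apply Subtype.ext
  funext i
  exact Fin.ext (DFunLike.congr_fun h i)

/-- The Hasse-Witt matrix of `y ^ m = f`: the coefficients of `x ^ (q w - w')` in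
`f ^ ((q - 1) / m)`. -/
noncomputable def hasseWitt {R : Type*} [CommRing R] (m D : ℕ) (a : Fin n → ℕ) (q : ℕ)
    (f : MvPolynomial (Fin n) R) : Matrix (Exps m D a) (Exps m D a) R :=
  Matrix.of fun w w' => coeff (Finsupp.equivFunOnFinite.symm fun i => q * (w.1 i : ℕ))
    (monomial (Finsupp.equivFunOnFinite.symm fun i => (w'.1 i : ℕ)) 1 * f ^ ((q - 1) / m))

lemma hasseWitt_eq {R : Type*} [CommRing R] (m D : ℕ) (a : Fin n → ℕ) (q : ℕ)
    (F : MvPolynomial (Fin n) R) :
    hasseWitt m D a q F = hm ((q - 1) / m) q (wexp m D a) F := by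
  ext w w'
  unfold hasseWitt hm
  rw [Matrix.of_apply, Matrix.of_apply]
  congr 1
  ext i
  rw [Finsupp.smul_apply, smul_eq_mul]
  rfl

lemma wdeg_add (a : Fin n → ℕ) (u v : Fin n →₀ ℕ) : wdeg a (u + v) = wdeg a u + wdeg a v := by
  unfold wdeg
  rw [← sum_add_distrib]
  exact sum_congr rfl fun i _ => by rw [Finsupp.add_apply]; ring

lemma wdeg_smul (a : Fin n → ℕ) (c : ℕ) (v : Fin n →₀ ℕ) : wdeg a (c • v) = c * wdeg a v := by
  unfold wdeg
  rw [mul_sum]
  exact sum_congr rfl fun i _ => by rw [Finsupp.smul_apply, smul_eq_mul]; ring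

lemma wdeg_zero (a : Fin n → ℕ) : wdeg a 0 = 0 := by
  unfold wdeg
  simp

lemma wdeg_wexp (m D : ℕ) (a : Fin n → ℕ) (w : Exps m D a) : m * wdeg a (wexp m D a w) = D :=
  w.2.2

lemma wdeg_pow {R : Type*} [CommRing R] (a : Fin n → ℕ) (D : ℕ) (F : MvPolynomial (Fin n) R)
    (hF : ∀ u ∈ F.support, wdeg a u = D) (e : ℕ) : ∀ u ∈ (F ^ e).support, wdeg a u = e * D := by
  classical
  induction e with
  | zero =>
    intro u hu
    rw [pow_zero, mem_support_iff, coeff_one] at hu
    have h1 : 0 = u := by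
      by_contra h
      exact hu (if_neg h)
    rw [← h1, wdeg_zero, zero_mul]
  | succ e ih =>
    intro u hu
    rw [pow_succ] at hu
    obtain ⟨b, hb, c, hc, rfl⟩ := mem_add.mp (support_mul _ _ hu)
    rw [wdeg_add, ih b hb, hF c hc]
    ring

/-- The condition on the supports. -/
lemma supp_cond {R : Type*} [CommRing R] {m p e D : ℕ} (hm : 1 ≤ m) (hp : p ≠ 0)
    (he : e * m + 1 = p) (a : Fin n → ℕ) (ha : ∀ i, a i ≠ 0) (F : MvPolynomial (Fin n) R)
    (hF : ∀ u ∈ F.support, wdeg a u = D) (l : Exps m D a) (v : Fin n →₀ ℕ)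
    (hv : v ∈ (monomial (wexp m D a l) 1 * F ^ e).support) (hv' : ∃ v', v = p • v') :
    ∃ i : Exps m D a, v = p • wexp m D a i := by
  classical
  obtain ⟨v', rfl⟩ := hv'
  obtain ⟨b, hb, u, hu, hbu⟩ := mem_add.mp (support_mul _ _ hv)
  have hb' := mem_singleton.mp (support_monomial_subset hb)
  rw [hb'] at hbu
  have h1 := wdeg_pow a D F hF e u hu
  have h2 := wdeg_wexp m D a l
  have h3 : p * (m * wdeg a v') = p * D := by
    have h4 := congrArg (wdeg a) hbu
    rw [wdeg_add, wdeg_smul, h1] at h4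
    calc p * (m * wdeg a v') = m * (p * wdeg a v') := by ring
      _ = m * wdeg a (wexp m D a l) + e * m * D := by rw [← h4]; ring
      _ = p * D := by rw [h2, ← he]; ring
  have h4 : m * wdeg a v' = D := Nat.eq_of_mul_eq_mul_left (Nat.pos_of_ne_zero hp) h3
  have h5 : ∀ i, 0 < v' i := by
    intro i
    have h6 := DFunLike.congr_fun hbu i
    rw [Finsupp.add_apply, Finsupp.smul_apply, smul_eq_mul] at h6
    have h7 := l.2.1 i
    rw [wexp_apply] at h6
    by_contra h8
    have h9 : v' i = 0 := by omega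
    rw [h9, mul_zero] at h6
    omega
  have h6 : ∀ i, v' i < D + 1 := by
    intro i
    have h7 : a i * v' i ≤ wdeg a v' :=
      single_le_sum (f := fun i => a i * v' i) (fun _ _ => Nat.zero_le _) (mem_univ i)
    have h8 : v' i ≤ a i * v' i := Nat.le_mul_of_pos_left _ (Nat.pos_of_ne_zero (ha i))
    have h9 : wdeg a v' ≤ m * wdeg a v' := Nat.le_mul_of_pos_left _ hm
    omega
  refine ⟨⟨fun i => ⟨v' i, h6 i⟩, h5, h4⟩, ?_⟩
  congr 1
  ext i
  rfl

lemma nsq_pos_of (hn : 0 < n) (m D : ℕ) (a : Fin n → ℕ) (w : Exps m D a) :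
    1 ≤ nsq (wexp m D a w) := by
  have h1 : 1 ≤ (wexp m D a w ⟨0, hn⟩) ^ 2 := Nat.one_le_pow _ _ (w.2.1 ⟨0, hn⟩)
  refine h1.trans ?_
  unfold nsq
  exact single_le_sum (f := fun l => (wexp m D a w l) ^ 2) (fun _ _ => Nat.zero_le _) (mem_univ _)

/-- The weights of the torus action. -/
noncomputable def om (m H D : ℕ) (a : Fin n → ℕ) (u : Fin n →₀ ℕ) : ℕ := by
  classical
  exact if ∃ w, u = m • wexp m D a w then nsq u / m else H

lemma om_w (m H D : ℕ) (a : Fin n → ℕ) (hm : 1 ≤ m) (w : Exps m D a) :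
    om m H D a (m • wexp m D a w) = m * nsq (wexp m D a w) := by
  unfold om
  rw [if_pos ⟨w, rfl⟩, nsq_smul, pow_two, mul_assoc]
  exact Nat.mul_div_cancel_left _ hm

lemma om_else (m H D : ℕ) (a : Fin n → ℕ) (u : Fin n →₀ ℕ)
    (h1 : ∀ w, u ≠ m • wexp m D a w) : om m H D a u = H := by
  unfold om
  rw [if_neg]
  rintro ⟨w, h⟩
  exact h1 w h

/-- Splitting the parameters. -/
lemma split_sum {M : Type*} [AddCommMonoid M] (m : ℕ) (hm : 1 ≤ m) (D : ℕ) (a : Fin n → ℕ)
    (T : Finset (Fin n →₀ ℕ)) (hT : ∀ w : Exps m D a, m • wexp m D a w ∈ T)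
    (f : T → M) [DecidableEq T] :
    ∑ u : T, f u = ∑ w : Exps m D a, f ⟨m • wexp m D a w, hT w⟩ +
      ∑ u ∈ univ.filter (fun u : T => ∀ w : Exps m D a, u.1 ≠ m • wexp m D a w), f u := by
  classical
  have hinj : Function.Injective fun w : Exps m D a => (⟨m • wexp m D a w, hT w⟩ : T) := by
    intro w w' h
    apply wexp_inj m D a
    ext i
    have h1 := DFunLike.congr_fun (congrArg Subtype.val h) i
    simp only [Finsupp.smul_apply, smul_eq_mul] at h1
    exact Nat.eq_of_mul_eq_mul_left hm h1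
  have h1 : (univ : Finset T) = (univ.image fun w : Exps m D a => (⟨m • wexp m D a w, hT w⟩ : T)) ∪
        univ.filter (fun u : T => ∀ w : Exps m D a, u.1 ≠ m • wexp m D a w) := by
    ext u
    simp only [mem_univ, true_iff, mem_union, mem_image, mem_filter, true_and]
    by_cases hu1 : ∃ w : Exps m D a, u.1 = m • wexp m D a w
    · obtain ⟨w, hw⟩ := hu1
      left
      exact ⟨w, Subtype.ext hw.symm⟩
    · right
      push Not at hu1
      exact hu1
  have h3 : Disjoint (univ.image fun w : Exps m D a => (⟨m • wexp m D a w, hT w⟩ : T))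
      (univ.filter (fun u : T => ∀ w : Exps m D a, u.1 ≠ m • wexp m D a w)) := by
    rw [disjoint_left]
    intro u hu hu'
    obtain ⟨w, _, hw⟩ := mem_image.mp hu
    exact (mem_filter.mp hu').2 w (by rw [← hw])
  have h4 : ∑ u : T, f u = ∑ u ∈ (univ.image fun w : Exps m D a =>
      (⟨m • wexp m D a w, hT w⟩ : T)) ∪
        univ.filter (fun u : T => ∀ w : Exps m D a, u.1 ≠ m • wexp m D a w), f u := by
    rw [← h1]
  rw [h4, sum_union h3, sum_image (fun w _ w' _ h => hinj h)]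

section res

variable {k : Type} [Field k]

/-- The action of the torus on the parameters. -/
noncomputable def act (m H D : ℕ) (a : Fin n → ℕ) (T : Finset (Fin n →₀ ℕ)) (x : k) (τ : T → k) :
    T → k := fun u => τ u * x ^ (H - om m H D a u.1)

lemma act_bij (m H D : ℕ) (a : Fin n → ℕ) (T : Finset (Fin n →₀ ℕ)) {x : k} (hx : x ≠ 0) :
    Function.Bijective (act m H D a T x) := by
  constructor
  · intro τ τ' h
    funext u
    have h1 := congrFun h u
    unfold act at h1
    exact mul_right_cancel₀ (pow_ne_zero _ hx) h1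
  · intro τ
    refine ⟨fun u => τ u * (x ^ (H - om m H D a u.1))⁻¹, ?_⟩
    funext u
    unfold act
    rw [mul_assoc, inv_mul_cancel₀ (pow_ne_zero _ hx), mul_one]

/-- The members of the one-parameter family. -/
lemma fS_eval (m H D : ℕ) (hm : 1 ≤ m) (a : Fin n → ℕ) (G : MvPolynomial (Fin n) k)
    (T : Finset (Fin n →₀ ℕ)) [DecidableEq T] (hT : ∀ w : Exps m D a, m • wexp m D a w ∈ T)
    (hH : ∀ w : Exps m D a, m * nsq (wexp m D a w) ≤ H)
    (κ s : k) (hκ : κ ≠ 0) (hs : s ≠ 0) (τ : T → k) :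
    MvPolynomial.map (Polynomial.evalRingHom s) (fS m H (wexp m D a) κ (G +
      ∑ u ∈ univ.filter (fun u : T => ∀ w : Exps m D a, u.1 ≠ m • wexp m D a w),
        monomial u.1 (τ u)) 0 fun w => τ ⟨m • wexp m D a w, hT w⟩) =
      C ((κ * s) ^ H) * member G T (act m H D a T (κ * s)⁻¹ τ) := by
  classical
  set σ := κ * s with hσ
  have hσ0 : σ ≠ 0 := mul_ne_zero hκ hs
  have hev : Polynomial.evalRingHom s (sg κ) = σ := by
    unfold sg
    simp [hσ]
  unfold fS member
  rw [map_add, map_add, map_mul, MvPolynomial.map_C, MvPolynomial.map_C, MvPolynomial.map_map,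
    map_pow, hev]
  have h1 : (Polynomial.evalRingHom s).comp Polynomial.C = RingHom.id k := by
    ext b
    simp
  rw [h1, MvPolynomial.map_id, map_sum]
  rw [split_sum m hm D a T hT]
  have hpw : ∀ b c : ℕ, c ≤ b → σ ^ b * σ⁻¹ ^ (b - c) = σ ^ c := by
    intro b c hbc
    rw [inv_pow, ← div_eq_mul_inv, div_eq_iff (pow_ne_zero _ hσ0), ← pow_add]
    congr 1
    omega
  have h3 : ∀ w : Exps m D a, MvPolynomial.map (Polynomial.evalRingHom s)
      (monomial (m • wexp m D a w) (Polynomial.C (τ ⟨m • wexp m D a w, hT w⟩) *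
        sg κ ^ (m * nsq (wexp m D a w)))) = C (σ ^ H) * monomial (m • wexp m D a w)
      (act m H D a T σ⁻¹ τ ⟨m • wexp m D a w, hT w⟩) := by
    intro w
    unfold act
    rw [MvPolynomial.map_monomial, C_mul_monomial, map_mul, map_pow, hev, om_w m H D a hm]
    refine congrArg (monomial (m • wexp m D a w)) ?_
    rw [← hpw H _ (hH w)]
    simp only [Polynomial.coe_evalRingHom, Polynomial.eval_C]
    ring
  have h4 : ∑ u ∈ univ.filter (fun u : T => ∀ w : Exps m D a, u.1 ≠ m • wexp m D a w),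
      monomial u.1 (act m H D a T σ⁻¹ τ u) =
      ∑ u ∈ univ.filter (fun u : T => ∀ w : Exps m D a, u.1 ≠ m • wexp m D a w),
        monomial u.1 (τ u) := by
    refine sum_congr rfl fun u hu => ?_
    have h6 := (mem_filter.mp hu).2
    unfold act
    rw [om_else m H D a u.1 h6, Nat.sub_self, pow_zero, mul_one]
  rw [h4, sum_congr rfl fun w _ => h3 w, ← mul_sum]
  simp only [map_zero, add_zero]
  ring

end res

end Pool.Agent.Q267.ST.Hom
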