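import Pool.Agent.Q267.ST.Def

/-!
# Statements of the soft Stepanov method
-/

set_option autoImplicit false

open Finset

namespace Pool.Agent.Q267.ST

open PowerSeries

/-- Uniform nonvanishing. The linear map `c ↦ ∑ c_i z_i` on vectors of polynomials of degree `< A₀`
is injective over the fraction field, hence injective after truncation modulo `X ^ n₀` for some `n₀`
(decreasing sequence of kernels in a finite dimensional space), hence some maximal minor `a` of its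
matrix is not zero. If `φ a ≠ 0` the reduced map is injective. -/
def S_Cert : Prop :=
  ∀ (A : Type) [CommRing A] [IsDomain A] (I : Type) [Fintype I] (z : I → PowerSeries A),
    (∀ c : I → Polynomial A, ∑ i, (c i : PowerSeries A) * z i = 0 → c = 0) → ∀ A₀ : ℕ,
    ∃ (n₀ : ℕ) (a : A), a ≠ 0 ∧ ∀ (k : Type) [Field k] (φ : A →+* k), φ a ≠ 0 →
      ∀ c : I → Polynomial k, (∀ i, (c i).degree < (A₀ : WithBot ℕ)) →
        (∀ n < n₀, coeff n (∑ i, (c i : PowerSeries k) * map φ (z i)) = 0) → c = 0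

/-- Vanishing. If `s = (X - t) ^ j g` with `g t ≠ 0`, `j < N ≤ p`, then
`(q ∂) ^ j s` has the value `j! q(t) ^ j g(t) ≠ 0` at `t`. -/
def S_Van : Prop :=
  ∀ (k : Type) [Field k] (p : ℕ) [Fact p.Prime] [CharP k p] (q s : Polynomial k) (N : ℕ)
    (T : Finset k), N ≤ p → s ≠ 0 →
    (∀ t ∈ T, q.eval t ≠ 0 ∧
      ∀ n < N, ((fun f : Polynomial k => q * Polynomial.derivative f)^[n] s).eval t = 0) →
    N * T.card ≤ s.natDegree

/-- The auxiliary vector: more unknown coefficients (`β |I| A₀`, `A₀ = β + N δ + 1`) than equations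
(at most `|I₀| N (A₀ + β + N δ)`). -/
def S_Aux : Prop :=
  ∀ (k : Type) [Field k] (I : Type) [Fintype I] [DecidableEq I] (I₀ : Finset I)
    (q : Polynomial k) (M : I → I → Polynomial k) (δ N β : ℕ), q.natDegree ≤ δ →
    (∀ i j, (M i j).natDegree ≤ δ) → 2 * N * I₀.card < β * Fintype.card I →
    ∃ c : ℕ → I → Polynomial k,
      (∀ b i, (c b i).degree < ((β + N * δ + 1 : ℕ) : WithBot ℕ)) ∧ (∀ b, β ≤ b → c b = 0) ∧
      c ≠ 0 ∧ ∀ n < N, ∀ e ∈ I₀,
        ∑ b ∈ range β, Polynomial.X ^ b * (opL q M)^[n] (c b) e = 0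

/-- The abstract theorem. `z` satisfies `q z' = M z`; the polynomials `Z e = G φ(z e)` have a common
factor `G` with derivative `0`. The auxiliary polynomial is
`s = ∑_b X ^ (p b) ∑_e c_(b, e) Z_e`, `(q ∂) ^ n s = ∑_b X ^ (p b) ∑_e (L ^ n c_b)_e Z_e`. At `t` with
`t ^ p = t` only the `e ∈ I₀` contribute, and there `∑_b X ^ b (L ^ n c_b)_e = 0`. It is not zero: for
the smallest `b` with `c_b ≠ 0` the series `∑_e c_(b, e) φ(z e)` has order `< n₀ ≤ p` (S_Cert). Then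
S_Van for the `t` with `q t ≠ 0`. -/
def S_Abs : Prop :=
  ∀ (A : Type) [CommRing A] [IsDomain A] (I : Type) [Fintype I] [DecidableEq I]
    (z : I → PowerSeries A),
    (∀ c : I → Polynomial A, ∑ i, (c i : PowerSeries A) * z i = 0 → c = 0) →
    ∀ (q : Polynomial A) (M : I → I → Polynomial A), q ≠ 0 →
    (∀ e, (q : PowerSeries A) * d⁄dX A (z e) = ∑ e', (M e' e : PowerSeries A) * z e') →
    ∀ (I₀ : Finset I) (N β : ℕ), 2 * N * I₀.card < β * Fintype.card I →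
    ∃ (A₀ p₀ : ℕ) (a : A), a ≠ 0 ∧ ∀ (p : ℕ) (k : Type) [Field k] [CharP k p] (φ : A →+* k),
      p.Prime → p₀ ≤ p → φ a ≠ 0 → ∀ (Z : I → Polynomial k) (G : PowerSeries k) (dZ : ℕ),
      d⁄dX k G = 0 → constantCoeff G ≠ 0 → (∀ e, (Z e : PowerSeries k) = G * map φ (z e)) →
      (∀ e, (Z e).natDegree ≤ dZ) → ∀ T : Finset k,
      (∀ t ∈ T, t ^ p = t ∧ ∀ e, e ∉ I₀ → (Z e).eval t = 0) → N * T.card ≤ β * p + A₀ + dZ

/-- Polynomial growth. `h(m)` = dimension over the fraction field of `R` of the span of the monomials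
`y ^ e` of degree `m`; `h(m) ≤ (m + 1) ^ (κ + 1)`, `h(m) ≥ 1`, so `h(m) - h(m - 1) ≤ ε h(m)` for some
`m ≥ 1`. `B \ B₀` = a maximal independent set of monomials divisible by `y 0` (it has `h(m - 1)`
elements because multiplication by `y 0` is injective), `B` = a maximal independent set containing
it. -/
def S_Growth : Prop :=
  ∀ (R S : Type) [CommRing R] [IsDomain R] [CommRing S] [IsDomain S] (i : R →+* S),
    Function.Injective i → ∀ (κ : ℕ) (y : Fin (κ + 1) → S), y 0 ≠ 0 → ∀ ε : ℝ, 0 < ε →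
    ∃ (m : ℕ) (B B₀ : Finset (Fin (κ + 1) → ℕ)), 1 ≤ m ∧ B₀ ⊆ B ∧ B.Nonempty ∧
      (∀ e ∈ B, ∑ l, e l = m) ∧ (∀ e ∈ B, e ∉ B₀ → e 0 ≠ 0) ∧
      (∀ c : (Fin (κ + 1) → ℕ) → R, ∑ e ∈ B, i (c e) * ∏ l, y l ^ e l = 0 →
        ∀ e ∈ B, c e = 0) ∧
      (∀ e : Fin (κ + 1) → ℕ, ∑ l, e l = m → ∃ (q : R) (c : (Fin (κ + 1) → ℕ) → R), q ≠ 0 ∧
        i q * ∏ l, y l ^ e l = ∑ e' ∈ B, i (c e') * ∏ l, y l ^ e' l) ∧
      (B₀.card : ℝ) ≤ ε * B.card

/-- The soft Stepanov theorem. -/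
def S_Soft : Prop :=
  ∀ (A : Type) [CommRing A] [IsDomain A] [CharZero A] (D : PowerSeries A), D ≠ 0 →
    HasODE D → ∀ (ε : ℝ), 0 < ε → ∀ C : ℕ, ∃ (p₀ : ℕ) (a : A), a ≠ 0 ∧
      ∀ (p : ℕ) (k : Type) [Field k] [CharP k p] (φ : A →+* k), p.Prime → p₀ ≤ p → φ a ≠ 0 →
      ∀ (P : Polynomial k) (G : PowerSeries k), d⁄dX k G = 0 → constantCoeff G ≠ 0 →
      (P : PowerSeries k) = G * map φ D → P.natDegree ≤ C * p → ∀ T : Finset k,
      (∀ t ∈ T, t ^ p = t ∧ P.eval t = 0) → (T.card : ℝ) ≤ ε * p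

/-- Sums. -/
def S_DFadd : Prop := ∀ (A : Type) [CommRing A] [IsDomain A] (f g : PowerSeries A),
  DFin f → DFin g → DFin (f + g)

/-- Products: `∂ ^ n (f g) = ∑ C(n, i) ∂ ^ i f ∂ ^ (n - i) g`. -/
def S_DFmul : Prop := ∀ (A : Type) [CommRing A] [IsDomain A] (f g : PowerSeries A),
  DFin f → DFin g → DFin (f * g)

/-- Polynomials. -/
def S_DFpoly : Prop := ∀ (A : Type) [CommRing A] [IsDomain A] (f : Polynomial A),
  DFin (f : PowerSeries A)

/-- Solutions of an equation of order `r`: `w = (f, f', ..., f ^ (r - 1))`, `q = c_r ^ (2 ^ n)` or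
similar. -/
def S_DFofODE : Prop := ∀ (A : Type) [CommRing A] [IsDomain A] (f : PowerSeries A),
  HasODE f → DFin f

/-- `N + 1` elements of a module generated by `N` elements over a domain are linearly dependent. -/
def S_DFtoODE : Prop := ∀ (A : Type) [CommRing A] [IsDomain A] (f : PowerSeries A),
  DFin f → HasODE f

/-- The relation (Lipshitz). Put `∂_i = x_i ^ (-1) θ_i`, `g₁ = m g`; then `g₁ ∂ F = R_∂ F` for
`∂ = ∂_S, ∂_i` (from `ψ ^ m g = 1`: `m g ∂ ψ = - ∂ g ψ`). By induction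
`g₁ ^ L ∂_1 ⋯ ∂_L F = Q F` with `Q` in the box of size `C L` (polynomials in `S` of degree `≤ C L` over
the Laurent polynomials with exponents `≤ C L` in absolute value). So among the `M ^ (n + 2)` elements
`S ^ a ∂_S ^ b ∂_x ^ c F`, `a, b, c_i < M`, there is a linear relation over `A`, because after
multiplication by `g₁ ^ ((n + 1) M)` they are `Q F` with `Q` in a box with `O(M ^ (n + 1))` monomials
(card_le_of_injective). The coefficient of `x ^ u` of `∂_x ^ c F` is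
`∏_i (u_i + 1) ⋯ (u_i + c_i) F_(u + c)`. -/
def S_LipRel : Prop :=
  ∀ (ι A : Type) [Fintype ι] [DecidableEq ι] [CommRing A] [IsDomain A] [CharZero A] (m : ℕ)
    (g : Polynomial (LP ι A)) (ψ : PowerSeries (LP ι A)) (u₀ : ι → ℤ), m ≠ 0 →
    ψ ^ m * (g : PowerSeries (LP ι A)) = 1 → ∃ (M : ℕ) (lam : ℕ → ℕ → (ι → ℕ) → A),
      (∃ a ∈ range M, ∃ b ∈ range M, ∃ c ∈ Fintype.piFinset (fun _ : ι => range M),
        lam a b c ≠ 0) ∧
      ∀ u : ι → ℤ, ∑ a ∈ range M, ∑ b ∈ range M, ∑ c ∈ Fintype.piFinset (fun _ : ι => range M),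
        PowerSeries.C (lam a b c * ∏ i, ∏ j ∈ range (c i), ((u i + j + 1 : ℤ) : A)) *
          PowerSeries.X ^ a *
            (d⁄dX A)^[b] (cx (fun i => u i + (c i : ℤ)) (xm u₀ * ψ)) = 0

/-- The extraction. Let `α` be minimal (componentwise) such that some `lam a b α ≠ 0`, and
`u = -1 - α`. The product `∏_i ∏_(j < c_i) (u_i + j + 1)` is not zero only if `c ≤ α`, so only `c = α`
contributes, with `± α!`, and `F_(u + α) = F_(-1)`. -/
def S_LipExt : Prop :=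
  ∀ (ι A : Type) [Fintype ι] [DecidableEq ι] [CommRing A] [IsDomain A] [CharZero A]
    (F : (ι → ℤ) → PowerSeries A) (M : ℕ) (lam : ℕ → ℕ → (ι → ℕ) → A),
      (∃ a ∈ range M, ∃ b ∈ range M, ∃ c ∈ Fintype.piFinset (fun _ : ι => range M),
        lam a b c ≠ 0) →
      (∀ u : ι → ℤ, ∑ a ∈ range M, ∑ b ∈ range M,
        ∑ c ∈ Fintype.piFinset (fun _ : ι => range M),
        PowerSeries.C (lam a b c * ∏ i, ∏ j ∈ range (c i), ((u i + j + 1 : ℤ) : A)) *
          PowerSeries.X ^ a * (d⁄dX A)^[b] (F (fun i => u i + (c i : ℤ))) = 0) →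
      HasODE (F fun _ => -1)

/-- The coefficients of a root of a rational function (from S_LipRel and S_LipExt). -/
def S_Lip : Prop :=
  ∀ (ι A : Type) [Fintype ι] [DecidableEq ι] [CommRing A] [IsDomain A] [CharZero A] (m : ℕ)
    (g : Polynomial (LP ι A)) (ψ : PowerSeries (LP ι A)), m ≠ 0 →
    ψ ^ m * (g : PowerSeries (LP ι A)) = 1 → ∀ u : ι → ℤ, HasODE (cx u ψ)

/-- Roots: the inverse for `m = 1`, `(1 - 4 y) ^ (-1/2)` from the Catalan series
(`(1 + 2 y C(-y)) ^ 2 = 1 + 4 y`) or a recursion for `m = 2`. -/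
def S_Root : Prop :=
  ∀ (R : Type) [CommRing R] (m : ℕ), m = 1 ∨ m = 2 → ∀ y : PowerSeries R,
    constantCoeff y = 0 → ∃ ψ : PowerSeries R, constantCoeff ψ = 1 ∧
      ψ ^ m * (1 + (m : PowerSeries R) ^ 2 * y) = 1

/-- The Frobenius: `Ψ ^ p = Ψ (x ^ p, S ^ p)` (MvPowerSeries.map_frobenius_expand). -/
def S_Frob : Prop :=
  ∀ (ι k : Type) [Fintype ι] [DecidableEq ι] [Field k] (p : ℕ) [Fact p.Prime] [CharP k p]
    (hp : p ≠ 0) (Ψ : PowerSeries (LP ι k)), (∀ a : k, a ^ p = a) →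
    (∀ u : ι → ℤ, cx (p • u) (Ψ ^ p) = PowerSeries.expand p hp (cx u Ψ)) ∧
      ∀ v : ι → ℤ, (∀ u : ι → ℤ, v ≠ p • u) → cx v (Ψ ^ p) = 0

/-- Coefficients of a product with a polynomial. -/
def S_CxMul : Prop :=
  ∀ (ι A : Type) [Fintype ι] [DecidableEq ι] [CommRing A] (Ψ : PowerSeries (LP ι A))
    (F : MvPolynomial ι (Polynomial A)) (u : ι → ℤ),
    cx u (Ψ * toL F) =
      ∑ v ∈ F.support, cx (u - zexp v) Ψ * ((MvPolynomial.coeff v F : Polynomial A) : PowerSeries A)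

end Pool.Agent.Q267.ST
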